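import Pool.Agent.Q12.PH.Base

/-!
# Poisson Hopf algebras: the antipode is anti-Poisson
-/

set_option autoImplicit false

open TensorProduct Coalgebra HopfAlgebra WithConv

namespace Pool.Agent.Q12.PH

section

variable {k A : Type*} [Field k] [CommRing A] [HopfAlgebra k A] (P : Poisson k A)

/-- The bracket is compatible with the comultiplication and the counit. -/
structure IsPB {k A : Type*} [Field k] [CommRing A] [Bialgebra k A] (P : Poisson k A) : Prop where
  co : ∀ a b, comul (R := k) (P.br a b) = tb P.br P.br (comul a) (comul b)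
  cu : ∀ a b, counit (R := k) (P.br a b) = 0

variable {P}

theorem IsPB.sum_right (h : IsPB P) {ι κ : Type*} {a b : A} (ra : Repr k a ι) (rb : Repr k b κ) :
    comul (R := k) (P.br a b) = ∑ i ∈ ra.index, ∑ j ∈ rb.index,
      (P.br (ra.left i) (rb.left j) ⊗ₜ (ra.right i * rb.right j) +
        (ra.left i * rb.left j) ⊗ₜ P.br (ra.right i) (rb.right j)) := by
  rw [h.co, ← ra.eq, ← rb.eq, map_sum, Finset.sum_comm]
  refine Finset.sum_congr rfl fun i _ => ?_
  rw [map_sum, LinearMap.sum_apply]
  refine Finset.sum_congr rfl fun j _ => ?_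
  rw [tb_tmul]

theorem der_left (a x : A) {ι : Type*} (ra : Repr k a ι) :
    ∑ i ∈ ra.index, P.br (antipode k (ra.left i)) x * ra.right i =
      - ∑ i ∈ ra.index, antipode k (ra.left i) * P.br (ra.right i) x := by
  rw [eq_neg_iff_add_eq_zero, ← Finset.sum_add_distrib]
  have h := sum_antipode_mul_eq_algebraMap_counit ra
  have h2 := congrArg (fun z => P.br z x) h
  simp only [P.alg_left, map_sum, LinearMap.sum_apply, P.leib'] at h2
  exact h2

theorem der_right (a x : A) {ι : Type*} (ra : Repr k a ι) :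
    ∑ i ∈ ra.index, P.br x (antipode k (ra.left i)) * ra.right i =
      - ∑ i ∈ ra.index, antipode k (ra.left i) * P.br x (ra.right i) := by
  have h := der_left (P := P) a x ra
  rw [← neg_inj, ← Finset.sum_neg_distrib] at h
  rw [eq_neg_iff_add_eq_zero, ← Finset.sum_add_distrib]
  have h := sum_antipode_mul_eq_algebraMap_counit ra
  have h2 := congrArg (fun z => P.br x z) h
  simp only [P.alg_right, map_sum, P.leib] at h2
  exact h2

variable (k A) in
/-- the multiplication, as an element of the convolution algebra -/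
noncomputable def cm : WithConv (A ⊗[k] A →ₗ[k] A) := toConv (LinearMap.mul' k A)

variable (k A) in
/-- its inverse -/
noncomputable def cn : WithConv (A ⊗[k] A →ₗ[k] A) :=
  toConv (LinearMap.mul' k A ∘ₗ TensorProduct.map (antipode k) (antipode k))

/-- the bracket -/
noncomputable def cb (P : Poisson k A) : WithConv (A ⊗[k] A →ₗ[k] A) :=
  toConv (TensorProduct.lift P.br)

theorem cm_tmul (a b : A) : cm k A (a ⊗ₜ b) = a * b := by simp [cm]

theorem cn_tmul (a b : A) : cn k A (a ⊗ₜ b) = antipode k a * antipode k b := by simp [cn]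

theorem cb_tmul (a b : A) : cb P (a ⊗ₜ b) = P.br a b := by simp [cb]

theorem conv_tmul (f g : WithConv (A ⊗[k] A →ₗ[k] A)) (a b : A) : (f * g) (a ⊗ₜ b) =
    ∑ i ∈ (ℛ k a).index, ∑ j ∈ (ℛ k b).index,
      f ((ℛ k a).left i ⊗ₜ (ℛ k b).left j) * g ((ℛ k a).right i ⊗ₜ (ℛ k b).right j) := by
  rw [((ℛ k a).tmul (ℛ k b)).convMul_apply]
  exact Finset.sum_product _ _ _

theorem conv_ext {f g : WithConv (A ⊗[k] A →ₗ[k] A)} (h : ∀ a b : A, f (a ⊗ₜ b) = g (a ⊗ₜ b)) :
    f = g := by
  apply WithConv.ofConv_injective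
  exact TensorProduct.ext' h

theorem cn_cm : cn k A * cm k A = 1 := by
  apply conv_ext
  intro a b
  rw [conv_tmul]
  simp only [cn_tmul, cm_tmul]
  have h1 := sum_antipode_mul_eq_algebraMap_counit (ℛ k a)
  have h2 := sum_antipode_mul_eq_algebraMap_counit (ℛ k b)
  have : ∀ i ∈ (ℛ k a).index, ∑ j ∈ (ℛ k b).index, antipode k ((ℛ k a).left i) *
      antipode k ((ℛ k b).left j) * ((ℛ k a).right i * (ℛ k b).right j) =
      antipode k ((ℛ k a).left i) * (ℛ k a).right i * algebraMap k A (counit b) := by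
    intro i _
    rw [← h2, Finset.mul_sum]
    refine Finset.sum_congr rfl fun j _ => ?_
    ring
  rw [Finset.sum_congr rfl this, ← Finset.sum_mul, h1]
  simp [mul_comm]

theorem cm_cn : cm k A * cn k A = 1 := by
  apply conv_ext
  intro a b
  rw [conv_tmul]
  simp only [cn_tmul, cm_tmul]
  have h1 := sum_mul_antipode_eq_algebraMap_counit (ℛ k a)
  have h2 := sum_mul_antipode_eq_algebraMap_counit (ℛ k b)
  have : ∀ i ∈ (ℛ k a).index, ∑ j ∈ (ℛ k b).index, (ℛ k a).left i * (ℛ k b).left j *
      (antipode k ((ℛ k a).right i) * antipode k ((ℛ k b).right j)) =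
      (ℛ k a).left i * antipode k ((ℛ k a).right i) * algebraMap k A (counit b) := by
    intro i _
    rw [← h2, Finset.mul_sum]
    refine Finset.sum_congr rfl fun j _ => ?_
    ring
  rw [Finset.sum_congr rfl this, ← Finset.sum_mul, h1]
  simp [mul_comm]

/-- the antipode of the bracket -/
noncomputable def sb (P : Poisson k A) : WithConv (A ⊗[k] A →ₗ[k] A) :=
  toConv (antipode k ∘ₗ TensorProduct.lift P.br)

/-- the bracket of the antipodes -/
noncomputable def bs (P : Poisson k A) : WithConv (A ⊗[k] A →ₗ[k] A) :=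
  toConv (TensorProduct.lift P.br ∘ₗ TensorProduct.map (antipode k) (antipode k))

theorem sb_tmul (a b : A) : sb P (a ⊗ₜ b) = antipode k (P.br a b) := by simp [sb]

theorem bs_tmul (a b : A) : bs P (a ⊗ₜ b) = P.br (antipode k a) (antipode k b) := by simp [bs]

theorem sb_cm (h : IsPB P) : sb P * cm k A + cn k A * cb P = 0 := by
  apply conv_ext
  intro a b
  show (sb P * cm k A) (a ⊗ₜ b) + (cn k A * cb P) (a ⊗ₜ b) = 0
  rw [conv_tmul, conv_tmul]
  simp only [cn_tmul, cm_tmul, sb_tmul, cb_tmul]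
  rw [← Finset.sum_add_distrib]
  have h0 : LinearMap.mul' k A ((antipode k).rTensor A (comul (P.br a b))) = 0 := by
    rw [mul_antipode_rTensor_comul_apply, h.cu, map_zero]
  rw [h.sum_right (ℛ k a) (ℛ k b), map_sum, map_sum] at h0
  rw [← h0]
  refine Finset.sum_congr rfl fun i _ => ?_
  rw [map_sum, map_sum, ← Finset.sum_add_distrib]
  refine Finset.sum_congr rfl fun j _ => ?_
  simp [antipode_mul_distrib]

theorem bs_cm : bs P * cm k A = cn k A * cb P := by
  apply conv_ext
  intro a b
  rw [conv_tmul, conv_tmul]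
  simp only [cn_tmul, cm_tmul, bs_tmul, cb_tmul]
  have h1 : ∀ j ∈ (ℛ k b).index, ∑ i ∈ (ℛ k a).index,
      P.br (antipode k ((ℛ k a).left i)) (antipode k ((ℛ k b).left j)) *
        ((ℛ k a).right i * (ℛ k b).right j) =
      - ∑ i ∈ (ℛ k a).index, antipode k ((ℛ k a).left i) *
        (P.br ((ℛ k a).right i) (antipode k ((ℛ k b).left j)) * (ℛ k b).right j) := by
    intro j _
    have h := congrArg (fun z => z * (ℛ k b).right j)
      (der_left (P := P) a (antipode k ((ℛ k b).left j)) (ℛ k a))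
    simp only [Finset.sum_mul, neg_mul] at h
    simpa only [mul_assoc] using h
  rw [Finset.sum_comm, Finset.sum_congr rfl h1, Finset.sum_neg_distrib, Finset.sum_comm,
    ← Finset.sum_neg_distrib]
  refine Finset.sum_congr rfl fun i _ => ?_
  rw [← Finset.mul_sum, der_right, mul_neg, neg_neg, Finset.mul_sum]
  refine Finset.sum_congr rfl fun j _ => ?_
  ring

/-- The antipode of a Poisson Hopf algebra reverses the bracket. -/
theorem antipode_br (h : IsPB P) (a b : A) :
    antipode k (P.br a b) = - P.br (antipode k a) (antipode k b) := by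
  have h1 : (sb P + bs P) * cm k A = 0 := by
    rw [add_mul, bs_cm, sb_cm h]
  have h2 : sb P + bs P = 0 := by
    have := congrArg (fun z => z * cn k A) h1
    simpa only [mul_assoc, cm_cn, mul_one, zero_mul] using this
  have h3 : (sb P + bs P) (a ⊗ₜ b) = 0 := by rw [h2]; rfl
  rw [eq_neg_iff_add_eq_zero, ← sb_tmul, ← bs_tmul]
  exact h3

/-- left translates of the bracket -/
noncomputable def tau (P : Poisson k A) (a b : A) : A := (cn k A * cb P) (a ⊗ₜ b)

theorem tau_eq (a b : A) : tau P a b = ∑ i ∈ (ℛ k a).index, ∑ j ∈ (ℛ k b).index,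
    antipode k ((ℛ k a).left i) * antipode k ((ℛ k b).left j) *
      P.br ((ℛ k a).right i) ((ℛ k b).right j) := by
  unfold tau
  rw [conv_tmul]
  simp only [cn_tmul, cb_tmul]

theorem tau_repr (a b : A) {ι κ : Type*} (ra : Repr k a ι) (rb : Repr k b κ) :
    tau P a b = ∑ i ∈ ra.index, ∑ j ∈ rb.index,
    antipode k (ra.left i) * antipode k (rb.left j) * P.br (ra.right i) (rb.right j) := by
  unfold tau
  rw [(ra.tmul rb).convMul_apply]
  simp only [Coalgebra.Repr.tmul]
  rw [Finset.sum_product]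
  simp only [cn_tmul, cb_tmul]

theorem br_eq_tau (a b : A) : P.br a b = ∑ i ∈ (ℛ k a).index, ∑ j ∈ (ℛ k b).index,
    (ℛ k a).left i * (ℛ k b).left j * tau P ((ℛ k a).right i) ((ℛ k b).right j) := by
  have h : cm k A * (cn k A * cb P) = cb P := by rw [← mul_assoc, cm_cn, one_mul]
  have h2 : (cm k A * (cn k A * cb P)) (a ⊗ₜ b) = cb P (a ⊗ₜ b) := by rw [h]
  rw [conv_tmul, cb_tmul] at h2
  rw [← h2]
  simp only [cm_tmul]
  rfl

theorem tau_mul (a b c : A) : tau P (a * b) c =
    algebraMap k A (counit a) * tau P b c + algebraMap k A (counit b) * tau P a c := by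
  rw [tau_repr (a * b) c ((ℛ k a).mul (ℛ k b)) (ℛ k c)]
  have e : ∑ i ∈ ((ℛ k a).mul (ℛ k b)).index, ∑ j ∈ (ℛ k c).index,
      antipode k (((ℛ k a).mul (ℛ k b)).left i) * antipode k ((ℛ k c).left j) *
        P.br (((ℛ k a).mul (ℛ k b)).right i) ((ℛ k c).right j) =
      ∑ i ∈ (ℛ k a).index, ∑ i' ∈ (ℛ k b).index, ∑ j ∈ (ℛ k c).index,
      antipode k ((ℛ k a).left i * (ℛ k b).left i') * antipode k ((ℛ k c).left j) *
        P.br ((ℛ k a).right i * (ℛ k b).right i') ((ℛ k c).right j) :=
    Finset.sum_product _ _ _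
  rw [e, tau_eq b c, tau_eq a c, ← sum_antipode_mul_eq_algebraMap_counit (ℛ k a),
    ← sum_antipode_mul_eq_algebraMap_counit (ℛ k b), Finset.sum_mul_sum, Finset.sum_mul_sum]
  conv_rhs => rw [Finset.sum_comm (s := (ℛ k b).index)]
  rw [← Finset.sum_add_distrib]
  refine Finset.sum_congr rfl fun i _ => ?_
  rw [← Finset.sum_add_distrib]
  refine Finset.sum_congr rfl fun i' _ => ?_
  rw [Finset.mul_sum, Finset.mul_sum, ← Finset.sum_add_distrib]
  refine Finset.sum_congr rfl fun j _ => ?_
  rw [antipode_mul_distrib, P.leib']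
  ring

end

end Pool.Agent.Q12.PH
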