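import Mathlib

/-!
# Poisson brackets on commutative algebras, tensor products
-/

set_option autoImplicit false

open TensorProduct

namespace Pool.Agent.Q12.PH

/-- A Poisson bracket on a commutative algebra. -/
structure Poisson (k : Type*) (A : Type*) [Field k] [CommRing A] [Algebra k A] where
  br : A →ₗ[k] A →ₗ[k] A
  self : ∀ a, br a a = 0
  jac : ∀ a b c, br a (br b c) = br (br a b) c + br b (br a c)
  leib : ∀ a b c, br a (b * c) = br a b * c + b * br a c

section basic

variable {k A : Type*} [Field k] [CommRing A] [Algebra k A] (P : Poisson k A)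

theorem Poisson.skew (a b : A) : P.br a b = - P.br b a := by
  have h := P.self (a + b)
  rw [map_add, map_add, LinearMap.add_apply, LinearMap.add_apply, P.self, P.self] at h
  rw [zero_add, add_zero] at h
  exact eq_neg_of_add_eq_zero_right h

theorem Poisson.leib' (a b c : A) : P.br (a * b) c = P.br a c * b + a * P.br b c := by
  rw [P.skew, P.leib, P.skew c a, P.skew c b]
  ring

theorem Poisson.one_right (a : A) : P.br a 1 = 0 := by
  have h := P.leib a 1 1
  rw [mul_one, one_mul, mul_one] at h
  simpa using h

theorem Poisson.one_left (a : A) : P.br 1 a = 0 := by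
  rw [P.skew, P.one_right, neg_zero]

theorem Poisson.alg_right (a : A) (r : k) : P.br a (algebraMap k A r) = 0 := by
  rw [Algebra.algebraMap_eq_smul_one, map_smul, P.one_right, smul_zero]

theorem Poisson.alg_left (a : A) (r : k) : P.br (algebraMap k A r) a = 0 := by
  rw [P.skew, P.alg_right, neg_zero]

/-- the opposite bracket -/
def Poisson.neg : Poisson k A where
  br := -P.br
  self a := by simp [P.self]
  jac a b c := by
    simp only [LinearMap.neg_apply, map_neg, neg_neg]
    rw [P.jac a b c]
  leib a b c := by
    simp only [LinearMap.neg_apply, P.leib]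
    ring

@[simp] theorem Poisson.neg_br (a b : A) : P.neg.br a b = - P.br a b := rfl

/-- the zero bracket -/
def zero (k A : Type*) [Field k] [CommRing A] [Algebra k A] : Poisson k A where
  br := 0
  self a := by simp
  jac a b c := by simp
  leib a b c := by simp

@[simp] theorem zero_br (a b : A) : (zero k A).br a b = 0 := rfl

end basic

section tensor

variable {k A B : Type*} [Field k] [CommRing A] [Algebra k A] [CommRing B] [Algebra k B]
  (P : Poisson k A) (Q : Poisson k B)

/-- the bracket of the tensor product, as a bilinear map -/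
noncomputable def tb (p : A →ₗ[k] A →ₗ[k] A) (q : B →ₗ[k] B →ₗ[k] B) :
    A ⊗[k] B →ₗ[k] A ⊗[k] B →ₗ[k] A ⊗[k] B :=
  TensorProduct.map₂ p (LinearMap.mul k B) + TensorProduct.map₂ (LinearMap.mul k A) q

theorem tb_tmul (p : A →ₗ[k] A →ₗ[k] A) (q : B →ₗ[k] B →ₗ[k] B) (a c : A) (b d : B) :
    tb p q (a ⊗ₜ b) (c ⊗ₜ d) = p a c ⊗ₜ (b * d) + (a * c) ⊗ₜ q b d := by
  simp [tb]

theorem tmul_eq (a : A) (b : B) : (a ⊗ₜ[k] b) = (a ⊗ₜ[k] (1 : B)) * ((1 : A) ⊗ₜ[k] b) := by
  simp

theorem tb_leib (x y z : A ⊗[k] B) :
    tb P.br Q.br x (y * z) = tb P.br Q.br x y * z + y * tb P.br Q.br x z := by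
  induction x using TensorProduct.induction_on with
  | zero => simp
  | add x x' hx hx' =>
    rw [map_add, LinearMap.add_apply, hx, hx', LinearMap.add_apply, LinearMap.add_apply]
    ring
  | tmul a b =>
    induction y using TensorProduct.induction_on with
    | zero => simp
    | add y y' hy hy' =>
      rw [add_mul, map_add, hy, hy', map_add]
      ring
    | tmul c d =>
      induction z using TensorProduct.induction_on with
      | zero => simp
      | add z z' hz hz' =>
        rw [mul_add, map_add, hz, hz', map_add]
        ring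
      | tmul e f =>
        rw [Algebra.TensorProduct.tmul_mul_tmul, tb_tmul, tb_tmul, tb_tmul, P.leib, Q.leib,
          TensorProduct.add_tmul, TensorProduct.tmul_add, add_mul, mul_add]
        simp only [Algebra.TensorProduct.tmul_mul_tmul]
        have e1 : b * (d * f) = b * d * f := by ring
        have e2 : d * (b * f) = b * d * f := by ring
        have e3 : c * (a * e) = a * (c * e) := by ring
        have e4 : a * c * e = a * (c * e) := by ring
        rw [e1, e2, e3, e4]
        abel

theorem tb_skew (x y : A ⊗[k] B) : tb P.br Q.br x y = - tb P.br Q.br y x := by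
  induction x using TensorProduct.induction_on with
  | zero => simp
  | add x x' hx hx' =>
    rw [map_add, LinearMap.add_apply, hx, hx', map_add]
    abel
  | tmul a b =>
    induction y using TensorProduct.induction_on with
    | zero => simp
    | add y y' hy hy' =>
      rw [map_add, hy, hy', map_add, LinearMap.add_apply]
      abel
    | tmul c d =>
      rw [tb_tmul, tb_tmul, P.skew a c, Q.skew b d, mul_comm b d, mul_comm a c,
        TensorProduct.neg_tmul, TensorProduct.tmul_neg]
      abel

theorem tb_self (x : A ⊗[k] B) : tb P.br Q.br x x = 0 := by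
  induction x using TensorProduct.induction_on with
  | zero => simp
  | add x x' hx hx' =>
    rw [map_add, map_add, LinearMap.add_apply, LinearMap.add_apply, hx, hx', tb_skew P Q x x']
    abel
  | tmul a b => rw [tb_tmul, P.self, Q.self]; simp

theorem tb_jac (x y z : A ⊗[k] B) : tb P.br Q.br x (tb P.br Q.br y z) =
    tb P.br Q.br (tb P.br Q.br x y) z + tb P.br Q.br y (tb P.br Q.br x z) := by
  induction x using TensorProduct.induction_on with
  | zero => simp
  | add x x' hx hx' =>
    simp only [map_add, LinearMap.add_apply, hx, hx']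
    abel
  | tmul a b =>
    induction y using TensorProduct.induction_on with
    | zero => simp
    | add y y' hy hy' =>
      simp only [map_add, LinearMap.add_apply, hy, hy']
      abel
    | tmul c d =>
      induction z using TensorProduct.induction_on with
      | zero => simp
      | add z z' hz hz' =>
        simp only [map_add, hz, hz']
        abel
      | tmul e f =>
        simp only [tb_tmul, map_add, LinearMap.add_apply, P.leib, Q.leib, P.leib', Q.leib']
        rw [P.jac a c e, Q.jac b d f]
        obtain ⟨i, hi⟩ : ∃ i : A →+* A ⊗[k] B, ∀ a, i a = a ⊗ₜ (1 : B) :=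
          ⟨Algebra.TensorProduct.includeLeftRingHom, fun a => rfl⟩
        obtain ⟨j, hj⟩ : ∃ j : B →+* A ⊗[k] B, ∀ b, j b = (1 : A) ⊗ₜ b :=
          ⟨(Algebra.TensorProduct.includeRight : B →ₐ[k] A ⊗[k] B).toRingHom, fun a => rfl⟩
        have t : ∀ (a : A) (b : B), a ⊗ₜ[k] b = i a * j b := fun a b => by
          rw [hi, hj, tmul_eq]
        rw [P.skew c a, Q.skew d b]
        simp only [t, map_add, map_mul, map_neg]
        ring

/-- the Poisson bracket of the tensor product -/
noncomputable def Poisson.tensor : Poisson k (A ⊗[k] B) where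
  br := tb P.br Q.br
  self := tb_self P Q
  jac := tb_jac P Q
  leib := tb_leib P Q

theorem tensor_br (x y : A ⊗[k] B) : (P.tensor Q).br x y = tb P.br Q.br x y := rfl

theorem tensor_tmul (a c : A) (b d : B) : (P.tensor Q).br (a ⊗ₜ b) (c ⊗ₜ d) =
    P.br a c ⊗ₜ (b * d) + (a * c) ⊗ₜ Q.br b d := tb_tmul _ _ _ _ _ _

end tensor

section hom

variable {k A B C D : Type*} [Field k] [CommRing A] [Algebra k A] [CommRing B] [Algebra k B]
  [CommRing C] [Algebra k C] [CommRing D] [Algebra k D]

/-- a homomorphism of Poisson algebras -/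
def IsHom (P : Poisson k A) (Q : Poisson k B) (f : A →ₐ[k] B) : Prop :=
  ∀ a b, f (P.br a b) = Q.br (f a) (f b)

theorem IsHom.comp {P : Poisson k A} {Q : Poisson k B} {R : Poisson k C} {g : B →ₐ[k] C}
    {f : A →ₐ[k] B} (hg : IsHom Q R g) (hf : IsHom P Q f) : IsHom P R (g.comp f) := fun a b => by
  rw [AlgHom.comp_apply, hf, hg]; rfl

theorem IsHom.id (P : Poisson k A) : IsHom P P (AlgHom.id k A) := fun _ _ => rfl

theorem IsHom.neg {P : Poisson k A} {Q : Poisson k B} {f : A →ₐ[k] B} (hf : IsHom P Q f) :
    IsHom P.neg Q.neg f := fun a b => by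
  rw [Poisson.neg_br, Poisson.neg_br, map_neg, hf]

/-- a bilinear identity on a tensor product can be checked on pure tensors -/
theorem isHom_tensor {P : Poisson k A} {Q : Poisson k B} {R : Poisson k C}
    (f : A ⊗[k] B →ₐ[k] C) (h : ∀ a b c d, f ((P.tensor Q).br (a ⊗ₜ b) (c ⊗ₜ d)) =
      R.br (f (a ⊗ₜ b)) (f (c ⊗ₜ d))) : IsHom (P.tensor Q) R f := by
  intro x y
  induction x using TensorProduct.induction_on with
  | zero => simp
  | add x x' hx hx' => simp only [map_add, LinearMap.add_apply, hx, hx']
  | tmul a b =>
    induction y using TensorProduct.induction_on with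
    | zero => simp
    | add y y' hy hy' => simp only [map_add, hy, hy']
    | tmul c d => exact h a b c d

theorem isHom_map {P : Poisson k A} {Q : Poisson k B} {R : Poisson k C} {S : Poisson k D}
    {f : A →ₐ[k] C} {g : B →ₐ[k] D} (hf : IsHom P R f) (hg : IsHom Q S g) :
    IsHom (P.tensor Q) (R.tensor S) (Algebra.TensorProduct.map f g) := by
  apply isHom_tensor
  intro a b c d
  rw [tensor_tmul, map_add, Algebra.TensorProduct.map_tmul, Algebra.TensorProduct.map_tmul,
    Algebra.TensorProduct.map_tmul, Algebra.TensorProduct.map_tmul, tensor_tmul, hf, hg, map_mul,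
    map_mul]

theorem isHom_assoc (P : Poisson k A) (Q : Poisson k B) (R : Poisson k C) :
    IsHom ((P.tensor Q).tensor R) (P.tensor (Q.tensor R))
      (Algebra.TensorProduct.assoc k k k A B C).toAlgHom := by
  apply isHom_tensor
  intro x c y c'
  induction x using TensorProduct.induction_on with
  | zero => simp
  | add x x' hx hx' => simp only [map_add, LinearMap.add_apply, TensorProduct.add_tmul, hx, hx']
  | tmul a b =>
    induction y using TensorProduct.induction_on with
    | zero => simp
    | add y y' hy hy' => simp only [map_add, TensorProduct.add_tmul, hy, hy']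
    | tmul a' b' =>
      have e : ∀ (a : A) (b : B) (c : C), (Algebra.TensorProduct.assoc k k k A B C).toAlgHom
        ((a ⊗ₜ b) ⊗ₜ c) = a ⊗ₜ (b ⊗ₜ c) := fun _ _ _ => rfl
      rw [tensor_tmul, tensor_tmul, e, e, tensor_tmul, tensor_tmul, TensorProduct.add_tmul,
        map_add, map_add, Algebra.TensorProduct.tmul_mul_tmul, e, e, e,
        Algebra.TensorProduct.tmul_mul_tmul, TensorProduct.tmul_add]
      abel

theorem isHom_rid (P : Poisson k A) :
    IsHom (P.tensor (zero k k)) P (Algebra.TensorProduct.rid k k A).toAlgHom := by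
  apply isHom_tensor
  intro a b c d
  have e : ∀ (a : A) (b : k), (Algebra.TensorProduct.rid k k A).toAlgHom (a ⊗ₜ b) = b • a :=
    fun a b => rfl
  rw [tensor_tmul, zero_br, TensorProduct.tmul_zero, add_zero, e, e, e]
  rw [map_smul, map_smul, LinearMap.smul_apply, smul_smul, mul_comm]

theorem isHom_lid (P : Poisson k A) :
    IsHom ((zero k k).tensor P) P (Algebra.TensorProduct.lid k A).toAlgHom := by
  apply isHom_tensor
  intro a b c d
  have e : ∀ (a : A) (b : k), (Algebra.TensorProduct.lid k A).toAlgHom (b ⊗ₜ a) = b • a :=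
    fun a b => rfl
  rw [tensor_tmul, zero_br, TensorProduct.zero_tmul, zero_add, e, e, e]
  rw [map_smul, map_smul, LinearMap.smul_apply, smul_smul, mul_comm]

end hom

end Pool.Agent.Q12.PH
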