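import Mathlib

/-!
# Hopf subalgebras of commutative Hopf algebras with the same augmentation ideal

If `B` is a Hopf subalgebra of a commutative Hopf algebra `A` over a field such that the augmentation
ideal of `A` is generated by that of `B`, then `B = A`. (This is a special case of Takeuchi's theorem
that `A` is faithfully flat over `B`; the proof uses Fitting ideals, as in the work of Skryabin.)
-/

set_option autoImplicit false
set_option linter.unusedSectionVars false

open TensorProduct Coalgebra HopfAlgebra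

namespace Pool.Agent.Q12.PH.Tak

section lin

variable {k : Type*} [Field k]

/-- independent rows have a nonzero minor of maximal size -/
theorem minor {s n : ℕ} (u : Fin s → Fin n → k) (hu : LinearIndependent k u) :
    ∃ i : Fin s → Fin n, (Matrix.of fun l m => u l (i m)).det ≠ 0 := by
  have h1 : (Matrix.of u).rank = s := by
    have := LinearIndependent.rank_matrix (M := Matrix.of u) hu
    simpa using this
  rw [Matrix.rank_eq_finrank_span_cols] at h1
  obtain ⟨f, hf1, -, hf2⟩ := Submodule.exists_fun_fin_finrank_span_eq k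
    (Set.range (Matrix.of u).col)
  have hf3 := hf2.comp (Fin.cast h1.symm) (Fin.cast_injective _)
  choose i hi using fun m => hf1 (Fin.cast h1.symm m)
  refine ⟨i, ?_⟩
  have h2 : (Matrix.of fun l m => u l (i m)) =
      (Matrix.of fun m : Fin s => f (Fin.cast h1.symm m)).transpose := by
    ext l m
    simp only [Matrix.of_apply, Matrix.transpose_apply]
    rw [← hi m]
    rfl
  rw [h2, Matrix.det_transpose]
  have h3 : IsUnit (Matrix.of fun m : Fin s => f (Fin.cast h1.symm m)) :=
    Matrix.linearIndependent_rows_iff_isUnit.1 hf3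
  rw [Matrix.isUnit_iff_isUnit_det] at h3
  exact h3.ne_zero

/-- more than `dim K` vectors in `K` have vanishing minors -/
theorem minor_zero {s n : ℕ} (K : Submodule k (Fin n → k)) (hK : Module.finrank k K < s)
    (u : Fin s → Fin n → k) (hu : ∀ l, u l ∈ K) (i : Fin s → Fin n) :
    (Matrix.of fun l m => u l (i m)).det = 0 := by
  have h1 : ¬ LinearIndependent k (fun l => (⟨u l, hu l⟩ : K)) := by
    intro h
    have := h.fintype_card_le_finrank
    rw [Fintype.card_fin] at this
    omega
  rw [Fintype.not_linearIndependent_iff] at h1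
  obtain ⟨g, hg, l, hl⟩ := h1
  rw [← Matrix.exists_vecMul_eq_zero_iff]
  refine ⟨g, fun h => hl (by rw [h]; rfl), ?_⟩
  ext m
  have h2 := congrArg (fun z : K => (z : Fin n → k) (i m)) hg
  simpa [Matrix.vecMul, dotProduct] using h2

end lin

section ev

variable {k A : Type*} [Field k] [CommRing A] [HopfAlgebra k A]

/-- contraction of the right factor with a functional -/
noncomputable def ev (φ : A →ₗ[k] k) : A ⊗[k] A →ₗ[k] A := TensorProduct.rid k A ∘ₗ φ.lTensor A

theorem ev_tmul (φ : A →ₗ[k] k) (x y : A) : ev φ (x ⊗ₜ y) = φ y • x := by simp [ev]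

/-- contraction of the left factor with a functional -/
noncomputable def el (φ : A →ₗ[k] k) : A ⊗[k] A →ₗ[k] A := TensorProduct.lid k A ∘ₗ φ.rTensor A

theorem el_tmul (φ : A →ₗ[k] k) (x y : A) : el φ (x ⊗ₜ y) = φ x • y := by simp [el]

/-- expansion in a basis -/
theorem expand {ι : Type*} (β : Module.Basis ι k A) (t : A ⊗[k] A) :
    ∃ s : Finset ι, ∀ s', s ⊆ s' → t = ∑ i ∈ s', ev (β.coord i) t ⊗ₜ β i := by
  classical
  obtain ⟨c, hc⟩ := TensorProduct.eq_repr_basis_right β t
  have h1 : ∀ i, ev (β.coord i) t = c i := by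
    intro i
    rw [← hc, Finsupp.sum, map_sum]
    simp only [ev_tmul, Module.Basis.coord_apply, Module.Basis.repr_self]
    by_cases hi : i ∈ c.support
    · rw [Finset.sum_eq_single i]
      · simp
      · intro j _ hj
        rw [Finsupp.single_apply, if_neg hj, zero_smul]
      · exact fun h => absurd hi h
    · rw [Finsupp.notMem_support_iff.1 hi]
      refine Finset.sum_eq_zero fun j hj => ?_
      rw [Finsupp.single_apply, if_neg, zero_smul]
      rintro rfl
      exact hi hj
  refine ⟨c.support, fun s' hs' => ?_⟩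
  simp only [h1]
  conv_lhs => rw [← hc, Finsupp.sum]
  refine Finset.sum_subset hs' fun i _ hi => ?_
  rw [Finsupp.notMem_support_iff.1 hi, TensorProduct.zero_tmul]

/-- stable subspaces -/
def Stable (V : Submodule k A) : Prop := ∀ v ∈ V, ∀ φ : A →ₗ[k] k, ev φ (comul v) ∈ V

theorem coassoc_ev (φ ψ : A →ₗ[k] k) (a : A) : ev ψ (comul (ev φ (comul a))) =
    ev (LinearMap.mul' k k ∘ₗ TensorProduct.map ψ φ ∘ₗ comul) (comul a) := by
  have h1 : ∀ t : A ⊗[k] A, ev ψ (comul (ev φ t)) =
      (TensorProduct.rid k A ∘ₗ (LinearMap.mul' k k ∘ₗ TensorProduct.map ψ φ).lTensor A)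
        (TensorProduct.assoc k A A A (comul.rTensor A t)) := by
    intro t
    induction t using TensorProduct.induction_on with
    | zero => simp
    | add x y hx hy => simp only [map_add, hx, hy]
    | tmul x y =>
      rw [ev_tmul, LinearMap.rTensor_tmul, map_smul, map_smul]
      generalize comul (R := k) x = z
      induction z using TensorProduct.induction_on with
      | zero => simp
      | add x y hx hy => simp only [map_add, smul_add, TensorProduct.add_tmul, hx, hy]
      | tmul u v =>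
        rw [ev_tmul]
        simp [smul_smul, mul_comm]
  have h2 : ∀ t : A ⊗[k] A, ev (LinearMap.mul' k k ∘ₗ TensorProduct.map ψ φ ∘ₗ comul) t =
      (TensorProduct.rid k A ∘ₗ (LinearMap.mul' k k ∘ₗ TensorProduct.map ψ φ).lTensor A)
        (comul.lTensor A t) := by
    intro t
    induction t using TensorProduct.induction_on with
    | zero => simp
    | add x y hx hy => simp only [map_add, hx, hy]
    | tmul x y => rw [ev_tmul]; simp
  rw [h1, h2, Coalgebra.coassoc_apply]

/-- local finiteness -/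
theorem exists_stable (X : Finset A) : ∃ V : Submodule k A, FiniteDimensional k V ∧ Stable V ∧
    ∀ a ∈ X, a ∈ V := by
  classical
  induction X using Finset.induction_on with
  | empty => exact ⟨⊥, inferInstance, fun v hv φ => by
      rw [Submodule.mem_bot] at hv; subst hv; simp, fun a ha => by simp at ha⟩
  | insert a X _ ih =>
    obtain ⟨V, h1, h2, h3⟩ := ih
    let L : (A →ₗ[k] k) →ₗ[k] A :=
      { toFun := fun φ => ev φ (comul a)
        map_add' := fun φ ψ => by simp [ev, LinearMap.lTensor_add]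
        map_smul' := fun c φ => by simp [ev, LinearMap.lTensor_smul] }
    have hL : FiniteDimensional k (LinearMap.range L) := by
      obtain ⟨s, hs⟩ := TensorProduct.exists_finset (comul (R := k) a)
      have : LinearMap.range L ≤ Submodule.span k ((s.image Prod.fst : Finset A) : Set A) := by
        rintro _ ⟨φ, rfl⟩
        show ev φ (comul a) ∈ _
        rw [hs, map_sum]
        refine Submodule.sum_mem _ fun i hi => ?_
        rw [ev_tmul]
        exact Submodule.smul_mem _ _ (Submodule.subset_span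
          (Finset.mem_coe.2 (Finset.mem_image_of_mem _ hi)))
      exact Submodule.finiteDimensional_of_le this
    refine ⟨V ⊔ LinearMap.range L, inferInstance, ?_, ?_⟩
    · intro v hv φ
      obtain ⟨x, hx, _, ⟨ψ, rfl⟩, rfl⟩ := Submodule.mem_sup.1 hv
      rw [map_add, map_add]
      refine Submodule.add_mem _ (Submodule.mem_sup_left (h2 x hx φ)) (Submodule.mem_sup_right ?_)
      exact ⟨_, (coassoc_ev ψ φ a).symm⟩
    · intro b hb
      rw [Finset.mem_insert] at hb
      rcases hb with rfl | hb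
      · refine Submodule.mem_sup_right ⟨counit, ?_⟩
        show ev counit (comul b) = b
        simp [ev, Coalgebra.lTensor_counit_comul]
      · exact Submodule.mem_sup_left (h3 b hb)

theorem comul_el (φ : A →ₗ[k] k) (t : A ⊗[k] A) : comul (R := k) (el φ t) =
    TensorProduct.lid k (A ⊗[k] A) (φ.rTensor (A ⊗[k] A) (comul.lTensor A t)) := by
  induction t using TensorProduct.induction_on with
  | zero => simp
  | add x y hx hy => simp only [map_add, hx, hy]
  | tmul x y => rw [el_tmul]; simp

theorem counit_el (φ : A →ₗ[k] k) (t : A ⊗[k] A) : counit (R := k) (el φ t) =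
    φ (ev counit t) := by
  induction t using TensorProduct.induction_on with
  | zero => simp
  | add x y hx hy => simp only [map_add, hx, hy]
  | tmul x y => rw [el_tmul, ev_tmul]; simp [mul_comm]

theorem assoc_el (φ : A →ₗ[k] k) (z : A ⊗[k] A) (y : A) :
    TensorProduct.lid k (A ⊗[k] A) (φ.rTensor (A ⊗[k] A) (TensorProduct.assoc k A A A (z ⊗ₜ y))) =
      el φ z ⊗ₜ y := by
  induction z using TensorProduct.induction_on with
  | zero => simp
  | add x y hx hy => simp only [map_add, TensorProduct.add_tmul, hx, hy]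
  | tmul x y => rw [el_tmul]; simp [TensorProduct.smul_tmul']

/-- matrix coefficients of a finite-dimensional stable subspace -/
theorem coords (V : Submodule k A) [FiniteDimensional k V] (hV : Stable V) :
    ∃ (n : ℕ) (w : Fin n → A) (wd : Fin n → (A →ₗ[k] k)) (c : Fin n → Fin n → A),
      (∀ i, w i ∈ V) ∧ (∀ v ∈ V, v = ∑ l, wd l v • w l) ∧
      (∀ j, comul (R := k) (w j) = ∑ i, w i ⊗ₜ c i j) ∧
      (∀ l j, ∑ i, antipode k (c l i) * c i j = if l = j then 1 else 0) := by
  classical
  let b := Module.finBasis k V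
  have h1 : ∀ l, ∃ g : A →ₗ[k] k, g ∘ₗ V.subtype = b.coord l := fun l =>
    LinearMap.exists_extend (b.coord l)
  choose wd hwd using h1
  have hwd' : ∀ l (v : V), wd l v = b.repr v l := fun l v => LinearMap.congr_fun (hwd l) v
  let w : Fin (Module.finrank k V) → A := fun i => b i
  have hw : ∀ i, w i ∈ V := fun i => (b i).2
  have hv : ∀ v ∈ V, v = ∑ l, wd l v • w l := by
    intro v hv
    have h2 := congrArg (V.subtype) (b.sum_repr ⟨v, hv⟩)
    rw [map_sum] at h2
    have h3 : v = ∑ l, V.subtype (b.repr ⟨v, hv⟩ l • b l) := h2.symm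
    conv_lhs => rw [h3]
    refine Finset.sum_congr rfl fun l _ => ?_
    rw [map_smul, ← hwd' l ⟨v, hv⟩]
    rfl
  have hdual : ∀ l m, wd l (w m) = if l = m then 1 else 0 := by
    intro l m
    rw [show w m = ((b m : V) : A) from rfl, hwd', b.repr_self, Finsupp.single_apply]
    simp only [eq_comm]
  let c : Fin (Module.finrank k V) → Fin (Module.finrank k V) → A :=
    fun i j => el (wd i) (comul (w j))
  have hc : ∀ j, comul (R := k) (w j) = ∑ i, w i ⊗ₜ c i j := by
    intro j
    let β := Module.Basis.ofVectorSpace k A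
    obtain ⟨s, hs⟩ := expand β (comul (w j))
    have e1 := hs s (Finset.Subset.refl _)
    have e2 : ∀ i, c i j = ∑ x ∈ s, wd i (ev (β.coord x) (comul (w j))) • β x := by
      intro i
      show el (wd i) (comul (w j)) = _
      conv_lhs => rw [e1]
      rw [map_sum]
      refine Finset.sum_congr rfl fun x _ => ?_
      rw [el_tmul]
    conv_lhs => rw [e1]
    simp only [e2, TensorProduct.tmul_sum]
    rw [Finset.sum_comm]
    refine Finset.sum_congr rfl fun x _ => ?_
    conv_lhs => rw [hv _ (hV _ (hw j) (β.coord x))]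
    rw [TensorProduct.sum_tmul]
    refine Finset.sum_congr rfl fun i _ => ?_
    rw [TensorProduct.smul_tmul]
  refine ⟨_, w, wd, c, hw, hv, hc, fun l j => ?_⟩
  have h4 : comul (R := k) (c l j) = ∑ i, c l i ⊗ₜ c i j := by
    show comul (el (wd l) (comul (w j))) = _
    rw [comul_el, ← Coalgebra.coassoc_apply, hc, map_sum, map_sum, map_sum, map_sum]
    refine Finset.sum_congr rfl fun i _ => ?_
    rw [LinearMap.rTensor_tmul, assoc_el]
  have h5 : counit (R := k) (c l j) = if l = j then 1 else 0 := by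
    show counit (el (wd l) (comul (w j))) = _
    rw [counit_el, ← hdual]
    congr 1
    simp [ev, Coalgebra.lTensor_counit_comul]
  have h6 := mul_antipode_rTensor_comul_apply (R := k) (c l j)
  rw [h4, h5, map_sum, map_sum] at h6
  simp only [LinearMap.rTensor_tmul, LinearMap.mul'_apply] at h6
  rw [h6]
  split_ifs <;> simp

end ev

section det

variable {T : Type*} [CommRing T]

theorem det_rows {s : ℕ} {τ : Type*} [DecidableEq τ] (Z : Finset τ) (a : Fin s → τ → T)
    (M : Fin s → τ → Fin s → T) :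
    (Matrix.of fun l m => ∑ t ∈ Z, a l t * M l t m).det =
      ∑ r ∈ Fintype.piFinset (fun _ : Fin s => Z), (∏ l, a l (r l)) *
        (Matrix.of fun l m => M l (r l) m).det := by
  have h1 := (Matrix.detRowAlternating (n := Fin s) (R := T)).toMultilinearMap.map_sum_finset
    (fun l t => a l t • M l t) (fun _ => Z)
  have h2 : (fun l => ∑ t ∈ Z, a l t • M l t) = fun l m => ∑ t ∈ Z, a l t * M l t m := by
    funext l m
    rw [Finset.sum_apply]
    rfl
  rw [h2] at h1
  refine Eq.trans h1 (Finset.sum_congr rfl fun r _ => ?_)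
  have h3 := (Matrix.detRowAlternating (n := Fin s) (R := T)).toMultilinearMap.map_smul_univ
    (fun l => a l (r l)) (fun l => M l (r l))
  exact h3

theorem det_cols {s : ℕ} {τ : Type*} [DecidableEq τ] (Z : Finset τ) (a : Fin s → τ → T)
    (M : Fin s → τ → Fin s → T) :
    (Matrix.of fun l m => ∑ t ∈ Z, a m t * M m t l).det =
      ∑ r ∈ Fintype.piFinset (fun _ : Fin s => Z), (∏ m, a m (r m)) *
        (Matrix.of fun l m => M m (r m) l).det := by
  have h := det_rows Z a M
  rw [← Matrix.det_transpose] at h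
  refine Eq.trans h (Finset.sum_congr rfl fun r _ => ?_)
  rw [← Matrix.det_transpose]
  rfl

/-- Cramer: expansion of a minor along its first column -/
theorem cramer {s n : ℕ} (x : Fin s → Fin n → T) (v : Fin n → T) (i : Fin s → Fin n) (j : Fin n)
    (h : (Matrix.of fun (l m : Fin (s + 1)) =>
      (Fin.cons v x : Fin (s + 1) → Fin n → T) l ((Fin.cons j i : Fin (s + 1) → Fin n) m)).det = 0) :
    (Matrix.of fun l m => x l (i m)).det * v j = ∑ l : Fin s,
      (- ((-1) ^ (l : ℕ).succ * (Matrix.of fun a b =>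
        (Fin.cons v x : Fin (s + 1) → Fin n → T) (l.succ.succAbove a) (i b)).det)) * x l j := by
  rw [Matrix.det_succ_column _ 0, Fin.sum_univ_succ] at h
  simp only [Matrix.of_apply, Fin.cons_zero, Fin.cons_succ, Fin.val_zero, add_zero, pow_zero,
    one_mul, Fin.val_succ] at h
  have e1 : ((Matrix.of fun (l m : Fin (s + 1)) =>
      (Fin.cons v x : Fin (s + 1) → Fin n → T) l ((Fin.cons j i : Fin (s + 1) → Fin n) m)).submatrix
        (Fin.succAbove 0) (Fin.succAbove 0)) = Matrix.of fun l m => x l (i m) := by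
    ext l m
    simp
  have e2 : ∀ l : Fin s, ((Matrix.of fun (l m : Fin (s + 1)) =>
      (Fin.cons v x : Fin (s + 1) → Fin n → T) l ((Fin.cons j i : Fin (s + 1) → Fin n) m)).submatrix
        (Fin.succAbove l.succ) (Fin.succAbove 0)) = Matrix.of fun a b =>
        (Fin.cons v x : Fin (s + 1) → Fin n → T) (l.succ.succAbove a) (i b) := by
    intro l
    ext a b
    simp
  rw [e1] at h
  simp only [e2] at h
  rw [mul_comm, eq_neg_of_add_eq_zero_left h, ← Finset.sum_neg_distrib]
  refine Finset.sum_congr rfl fun l _ => ?_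
  rw [Nat.succ_eq_add_one]
  ring

end det

section main

variable {k A : Type*} [Field k] [CommRing A] [HopfAlgebra k A] {B : Subalgebra k A}

theorem det_mem {s : ℕ} (M : Matrix (Fin s) (Fin s) A) (h : ∀ l m, M l m ∈ B) : M.det ∈ B := by
  rw [Matrix.det_apply]
  refine Subalgebra.sum_mem _ fun σ _ => ?_
  have h1 : ∏ i, M (σ i) i ∈ B := Subalgebra.prod_mem _ fun i _ => h _ _
  rcases Int.units_eq_one_or (Equiv.Perm.sign σ) with e | e
  · rw [e, one_smul]; exact h1
  · rw [e, Units.neg_smul, one_smul]; exact B.neg_mem h1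

/-- `B` is a Hopf subalgebra -/
structure IsSub (B : Subalgebra k A) : Prop where
  co : ∀ b ∈ B, ∃ s : Finset (A × A), (∀ i ∈ s, i.1 ∈ B ∧ i.2 ∈ B) ∧
    comul (R := k) b = ∑ i ∈ s, i.1 ⊗ₜ i.2
  an : ∀ b ∈ B, antipode k b ∈ B

theorem ev_mul (φ : A →ₗ[k] k) (x y : A) (t : A ⊗[k] A) :
    ev φ ((x ⊗ₜ y) * t) = x * ev (φ ∘ₗ LinearMap.mulLeft k y) t := by
  induction t using TensorProduct.induction_on with
  | zero => simp
  | add a b ha hb => rw [mul_add, map_add, ha, hb, map_add, mul_add]
  | tmul a b => simp [ev_tmul]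

theorem ev_mul' (φ : A →ₗ[k] k) (x : A) (t : A ⊗[k] A) :
    ev φ ((x ⊗ₜ 1) * t) = x * ev φ t := by
  rw [ev_mul]
  congr 2
  ext a
  simp

theorem ev_mem (hB : IsSub B) {b : A} (hb : b ∈ B) (φ : A →ₗ[k] k) :
    ev φ (comul b) ∈ B := by
  obtain ⟨s, hs, h⟩ := hB.co b hb
  rw [h, map_sum]
  refine Subalgebra.sum_mem _ fun i hi => ?_
  rw [ev_tmul]
  exact B.smul_mem (hs i hi).1 _

theorem ev_mem_mul (hB : IsSub B) {I : Submodule k A} (hI : ∀ b ∈ B, ∀ x ∈ I, b * x ∈ I)
    {b : A} (hb : b ∈ B) {t : A ⊗[k] A} (ht : ∀ φ, ev φ t ∈ I) (φ : A →ₗ[k] k) :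
    ev φ (comul b * t) ∈ I := by
  obtain ⟨s, hs, h⟩ := hB.co b hb
  rw [h, Finset.sum_mul, map_sum]
  refine Submodule.sum_mem _ fun i hi => ?_
  rw [ev_mul]
  exact hI _ (hs i hi).1 _ (ht _)

/-- Coideals of `B` are `0` or contain `1`. -/
theorem coideal (hB : IsSub B) {I : Submodule k A} (hI : ∀ b ∈ B, ∀ x ∈ I, b * x ∈ I)
    (hIB : ∀ x ∈ I, x ∈ B) (hco : ∀ x ∈ I, ∀ φ : A →ₗ[k] k, ev φ (comul x) ∈ I) :
    (∀ x ∈ I, x = 0) ∨ (1 : A) ∈ I := by
  by_cases h0 : ∀ x ∈ I, counit (R := k) x = 0
  · left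
    intro d hd
    have h1 : ∀ φ : A →ₗ[k] k, φ d = 0 := by
      intro φ
      have h2 := h0 _ (hco d hd φ)
      have h3 : ∀ t : A ⊗[k] A, counit (R := k) (ev φ t) =
          φ (TensorProduct.lid k A (counit.rTensor A t)) := by
        intro t
        induction t using TensorProduct.induction_on with
        | zero => simp
        | add a b ha hb => simp only [map_add, ha, hb]
        | tmul a b => rw [ev_tmul]; simp [mul_comm]
      rw [h3, Coalgebra.rTensor_counit_comul] at h2
      simpa using h2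
    exact (Module.forall_dual_apply_eq_zero_iff k d).1 h1
  · right
    push Not at h0
    obtain ⟨d, hd, hd0⟩ := h0
    obtain ⟨π, hπ⟩ := (B.toSubmodule.subtype).exists_leftInverse_of_injective
      (LinearMap.ker_eq_bot.2 Subtype.val_injective)
    have hπ' : ∀ b ∈ B, ((π b : B.toSubmodule) : A) = b := by
      intro b hb
      exact congrArg Subtype.val (LinearMap.congr_fun hπ ⟨b, hb⟩)
    obtain ⟨s, hs, h⟩ := hB.co d (hIB d hd)
    let β := Module.Basis.ofVectorSpace k A
    obtain ⟨s', hs'⟩ := expand β (comul (R := k) d)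
    have h1 := hs' s' (Finset.Subset.refl _)
    have h2 : (B.toSubmodule.subtype ∘ₗ π).lTensor A (comul (R := k) d) = comul d := by
      rw [h, map_sum]
      refine Finset.sum_congr rfl fun i hi => ?_
      rw [LinearMap.lTensor_tmul]
      show i.1 ⊗ₜ ((π i.2 : B.toSubmodule) : A) = _
      rw [hπ' _ (hs i hi).2]
    have h3 := mul_antipode_lTensor_comul_apply (R := k) d
    rw [← h2, h1, map_sum, map_sum, map_sum] at h3
    simp only [LinearMap.lTensor_tmul, LinearMap.mul'_apply] at h3
    have h4 : algebraMap k A (counit d) ∈ I := by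
      rw [← h3]
      refine Submodule.sum_mem _ fun i _ => ?_
      rw [mul_comm]
      exact hI _ (hB.an _ (π (β i)).2) _ (hco d hd _)
    rw [Algebra.algebraMap_eq_smul_one] at h4
    have h5 := I.smul_mem (counit (R := k) d)⁻¹ h4
    rwa [smul_smul, inv_mul_cancel₀ hd0, one_smul] at h5

variable {n : ℕ} (w : Fin n → A) (c : Fin n → Fin n → A)

/-- relations -/
def Rel (B : Subalgebra k A) (w : Fin n → A) (N : Submodule k A) : Set (Fin n → A) :=
  {x | (∀ j, x j ∈ B) ∧ ∑ j, x j * w j ∈ N}

/-- the ideal of the minors of the relations -/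
def MI (B : Subalgebra k A) (w : Fin n → A) (N : Submodule k A) (s : ℕ) : Submodule k A :=
  Submodule.span k {z | ∃ (b : A) (x : Fin s → Fin n → A) (i : Fin s → Fin n), b ∈ B ∧
    (∀ l, x l ∈ Rel B w N) ∧ z = b * (Matrix.of fun l m => x l (i m)).det}

variable {w c} {N : Submodule k A}
  (hc : ∀ j, comul (R := k) (w j) = ∑ i, w i ⊗ₜ c i j)
  (hcc : ∀ l j, ∑ i, antipode k (c l i) * c i j = if l = j then 1 else 0)
  (hNB : ∀ b ∈ B, ∀ x ∈ N, b * x ∈ N) (hN : Stable N)

/-- the transformed vector -/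
noncomputable def yv (c : Fin n → Fin n → A) (x : Fin n → A) (i : Fin n) : A ⊗[k] A :=
  ∑ j, (1 ⊗ₜ c i j) * comul (x j)

include hc hN in
theorem yv_rel (hB : IsSub B) {x : Fin n → A} (hx : x ∈ Rel B w N) (φ : A →ₗ[k] k) :
    (fun i => ev φ (yv c x i)) ∈ Rel B w N := by
  refine ⟨fun i => ?_, ?_⟩
  · show ev φ (∑ j, (1 ⊗ₜ c i j) * comul (x j)) ∈ B
    rw [map_sum]
    refine Subalgebra.sum_mem _ fun j _ => ?_
    rw [ev_mul, one_mul]
    exact ev_mem hB (hx.1 j) _
  · have h1 : ∑ i, ev φ (yv c x i) * w i = ev φ (comul (∑ j, x j * w j)) := by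
      have h2 : comul (R := k) (∑ j, x j * w j) = ∑ i, (w i ⊗ₜ 1) * yv c x i := by
        rw [map_sum]
        unfold yv
        simp only [Finset.mul_sum]
        rw [Finset.sum_comm]
        refine Finset.sum_congr rfl fun j _ => ?_
        rw [Bialgebra.comul_mul, hc, mul_comm, Finset.sum_mul]
        refine Finset.sum_congr rfl fun i _ => ?_
        rw [← mul_assoc, Algebra.TensorProduct.tmul_mul_tmul, mul_one, one_mul]
      rw [h2, map_sum]
      refine Finset.sum_congr rfl fun i _ => ?_
      rw [ev_mul', mul_comm]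
    rw [h1]
    exact hN _ hx.2 φ

include hcc in
theorem yv_inv (x : Fin n → A) (i : Fin n) :
    comul (R := k) (x i) = ∑ j, (1 ⊗ₜ antipode k (c i j)) * yv c x j := by
  unfold yv
  simp only [Finset.mul_sum, ← mul_assoc, Algebra.TensorProduct.tmul_mul_tmul, one_mul]
  rw [Finset.sum_comm]
  have h1 : ∀ l, ∑ j, ((1 : A) ⊗ₜ[k] (antipode k (c i j) * c j l)) * comul (x l) =
      (if i = l then comul (R := k) (x l) else 0) := by
    intro l
    rw [← Finset.sum_mul, ← TensorProduct.tmul_sum, hcc]
    split_ifs with h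
    · rw [← Algebra.TensorProduct.one_def, one_mul]
    · rw [TensorProduct.tmul_zero, zero_mul]
  rw [Finset.sum_congr rfl fun l _ => h1 l, Finset.sum_ite_eq]
  simp

/-- closure under the auxiliary operations -/
theorem ev_one_mul {I : Submodule k A} {d : A} (hd : d ∈ I) (e : A) (φ : A →ₗ[k] k) :
    ev φ ((1 ⊗ₜ e) * (d ⊗ₜ 1)) ∈ I := by
  rw [Algebra.TensorProduct.tmul_mul_tmul, one_mul, mul_one, ev_tmul]
  exact I.smul_mem _ hd

theorem prod_one_tmul {s : ℕ} (e : Fin s → A) :
    ∏ l, ((1 : A) ⊗ₜ[k] e l) = (1 : A) ⊗ₜ[k] ∏ l, e l := by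
  have h := map_prod (Algebra.TensorProduct.includeRight : A →ₐ[k] A ⊗[k] A) e Finset.univ
  exact h.symm

include hc hcc hN in
/-- the comultiplication of a minor -/
theorem minor_co (hB : IsSub B) {s : ℕ} {I : Submodule k A}
    (hI : ∀ (x : Fin s → Fin n → A) (i : Fin s → Fin n), (∀ l, x l ∈ Rel B w N) →
      (Matrix.of fun l m => x l (i m)).det ∈ I)
    (x : Fin s → Fin n → A) (hx : ∀ l, x l ∈ Rel B w N) (i : Fin s → Fin n) (φ : A →ₗ[k] k) :
    ev φ (comul (Matrix.of fun l m => x l (i m)).det) ∈ I := by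
  classical
  let β := Module.Basis.ofVectorSpace k A
  choose Z hZ using fun (l : Fin s) (j : Fin n) => expand β (yv (k := k) c (x l) j)
  let Z0 := Finset.univ.biUnion fun l => Finset.univ.biUnion fun j => Z l j
  have hy : ∀ l j, yv (k := k) c (x l) j =
      ∑ t ∈ Z0, ev (β.coord t) (yv c (x l) j) ⊗ₜ β t := by
    intro l j
    refine hZ l j Z0 fun t ht => ?_
    exact Finset.mem_biUnion.2 ⟨l, Finset.mem_univ _, Finset.mem_biUnion.2 ⟨j, Finset.mem_univ _,
      ht⟩⟩
  have h1 : comul (R := k) (Matrix.of fun l m => x l (i m)).det =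
      (Matrix.of fun l m => ∑ t ∈ Z0, ((1 : A) ⊗ₜ[k] β t) *
        ∑ j, ((1 : A) ⊗ₜ[k] antipode k (c (i m) j)) *
          (ev (β.coord t) (yv c (x l) j) ⊗ₜ (1 : A))).det := by
    have e1 := RingHom.map_det (Bialgebra.comulAlgHom k A : A →+* A ⊗[k] A)
      (Matrix.of fun l m => x l (i m))
    refine Eq.trans e1 ?_
    congr 1
    ext l m
    show comul (x l (i m)) = _
    rw [yv_inv hcc (x l) (i m), Matrix.of_apply]
    simp only [Finset.mul_sum]
    conv_rhs => rw [Finset.sum_comm]
    refine Finset.sum_congr rfl fun j _ => ?_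
    conv_lhs => rw [hy l j]
    rw [Finset.mul_sum]
    refine Finset.sum_congr rfl fun t _ => ?_
    simp only [Algebra.TensorProduct.tmul_mul_tmul, one_mul, mul_one]
    rw [mul_comm]
  rw [h1, det_rows Z0 (fun _ t => (1 : A) ⊗ₜ[k] β t), map_sum]
  refine Submodule.sum_mem _ fun r _ => ?_
  rw [det_cols Finset.univ (fun m j => (1 : A) ⊗ₜ[k] antipode k (c (i m) j))
    (fun m j l => ev (β.coord (r l)) (yv c (x l) j) ⊗ₜ (1 : A)), Finset.mul_sum, map_sum]
  refine Submodule.sum_mem _ fun q _ => ?_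
  rw [prod_one_tmul, prod_one_tmul, ← mul_assoc, Algebra.TensorProduct.tmul_mul_tmul, one_mul]
  have h2 : (Matrix.of fun l m => ev (β.coord (r l)) (yv c (x l) (q m)) ⊗ₜ[k] (1 : A)).det =
      (Matrix.of fun l m => ev (β.coord (r l)) (yv c (x l) (q m))).det ⊗ₜ (1 : A) := by
    have e1 := RingHom.map_det (Algebra.TensorProduct.includeLeftRingHom : A →+* A ⊗[k] A)
      (Matrix.of fun l m => ev (β.coord (r l)) (yv c (x l) (q m)))
    exact e1.symm
  rw [h2]
  refine ev_one_mul ?_ _ _
  exact hI (fun l j => ev (β.coord (r l)) (yv c (x l) j)) q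
    (fun l => yv_rel hc hN hB (hx l) (β.coord (r l)))

theorem MI_mul (s : ℕ) : ∀ b ∈ B, ∀ x ∈ MI B w N s, b * x ∈ MI B w N s := by
  intro b hb x hx
  induction hx using Submodule.span_induction with
  | mem z h =>
    obtain ⟨b', x, i, hb', hx, rfl⟩ := h
    exact Submodule.subset_span ⟨b * b', x, i, B.mul_mem hb hb', hx, by ring⟩
  | zero => rw [mul_zero]; exact Submodule.zero_mem _
  | add x y _ _ hx hy => rw [mul_add]; exact Submodule.add_mem _ hx hy
  | smul a x _ hx => rw [mul_smul_comm]; exact Submodule.smul_mem _ _ hx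

theorem MI_sub (s : ℕ) : ∀ x ∈ MI B w N s, x ∈ B := by
  intro x hx
  induction hx using Submodule.span_induction with
  | mem z h =>
    obtain ⟨b', x, i, hb', hx, rfl⟩ := h
    exact B.mul_mem hb' (det_mem _ fun l m => (hx l).1 _)
  | zero => exact B.zero_mem
  | add x y _ _ hx hy => exact B.add_mem hx hy
  | smul a x _ hx => exact B.smul_mem hx _

theorem det_mem_MI {s : ℕ} {x : Fin s → Fin n → A} (hx : ∀ l, x l ∈ Rel B w N)
    (i : Fin s → Fin n) : (Matrix.of fun l m => x l (i m)).det ∈ MI B w N s :=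
  Submodule.subset_span ⟨1, x, i, B.one_mem, hx, (one_mul _).symm⟩

include hc hcc hN in
theorem MI_co (hB : IsSub B) (s : ℕ) : ∀ x ∈ MI B w N s, ∀ φ : A →ₗ[k] k,
    ev φ (comul x) ∈ MI B w N s := by
  intro x hx
  induction hx using Submodule.span_induction with
  | mem z h =>
    obtain ⟨b', x, i, hb', hx, rfl⟩ := h
    intro φ
    rw [Bialgebra.comul_mul]
    exact ev_mem_mul hB (MI_mul s) hb'
      (minor_co hc hcc hN hB (fun x i hx => det_mem_MI hx i) x hx i) φ
  | zero => intro φ; simp
  | add x y _ _ hx hy => intro φ; rw [map_add, map_add]; exact Submodule.add_mem _ (hx φ) (hy φ)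
  | smul a x _ hx => intro φ; rw [map_smul, map_smul]; exact Submodule.smul_mem _ _ (hx φ)

include hc hcc hN in
theorem MI_alt (hB : IsSub B) (s : ℕ) : (∀ x ∈ MI B w N s, x = 0) ∨ (1 : A) ∈ MI B w N s :=
  coideal hB (MI_mul s) (MI_sub s) (MI_co hc hcc hN hB s)

end main

section final

variable {k A : Type*} [Field k] [CommRing A] [HopfAlgebra k A] {B : Subalgebra k A}

/-- the products of elements of `V` and of elements of `B` with counit zero -/
def VB (B : Subalgebra k A) (V : Submodule k A) : Submodule k A :=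
  Submodule.span k {z | ∃ y b : A, y ∈ V ∧ b ∈ B ∧ counit (R := k) b = 0 ∧ z = b * y}

/-- the products of elements of `V` and of elements of `B` -/
def VA (B : Subalgebra k A) (V : Submodule k A) : Submodule k A :=
  Submodule.span k {z | ∃ y b : A, y ∈ V ∧ b ∈ B ∧ z = b * y}

theorem VA_mul (V : Submodule k A) : ∀ b ∈ B, ∀ x ∈ VA B V, b * x ∈ VA B V := by
  intro b hb x hx
  induction hx using Submodule.span_induction with
  | mem z h =>
    obtain ⟨y, b', hy, hb', rfl⟩ := h
    exact Submodule.subset_span ⟨y, b * b', hy, B.mul_mem hb hb', by ring⟩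
  | zero => rw [mul_zero]; exact Submodule.zero_mem _
  | add x y _ _ hx hy => rw [mul_add]; exact Submodule.add_mem _ hx hy
  | smul a x _ hx => rw [mul_smul_comm]; exact Submodule.smul_mem _ _ hx

theorem VB_mul (V : Submodule k A) : ∀ b ∈ B, ∀ x ∈ VB B V, b * x ∈ VB B V := by
  intro b hb x hx
  induction hx using Submodule.span_induction with
  | mem z h =>
    obtain ⟨y, b', hy, hb', h0, rfl⟩ := h
    exact Submodule.subset_span ⟨y, b * b', hy, B.mul_mem hb hb', by
      rw [Bialgebra.counit_mul, h0, mul_zero], by ring⟩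
  | zero => rw [mul_zero]; exact Submodule.zero_mem _
  | add x y _ _ hx hy => rw [mul_add]; exact Submodule.add_mem _ hx hy
  | smul a x _ hx => rw [mul_smul_comm]; exact Submodule.smul_mem _ _ hx

theorem VA_stable (hB : IsSub B) {V : Submodule k A} (hV : Stable V) : Stable (VA B V) := by
  intro x hx
  induction hx using Submodule.span_induction with
  | mem z h =>
    obtain ⟨y, b, hy, hb, rfl⟩ := h
    intro φ
    rw [Bialgebra.comul_mul]
    refine ev_mem_mul hB (VA_mul V) hb (fun φ => ?_) φ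
    exact Submodule.subset_span ⟨_, 1, hV y hy φ, B.one_mem, (one_mul _).symm⟩
  | zero => intro φ; simp
  | add x y _ _ hx hy => intro φ; rw [map_add, map_add]; exact Submodule.add_mem _ (hx φ) (hy φ)
  | smul a x _ hx => intro φ; rw [map_smul, map_smul]; exact Submodule.smul_mem _ _ (hx φ)

theorem stable_sup {V V' : Submodule k A} (hV : Stable V) (hV' : Stable V') :
    Stable (V ⊔ V') := by
  intro x hx φ
  obtain ⟨y, hy, z, hz, rfl⟩ := Submodule.mem_sup.1 hx
  rw [map_add, map_add]
  exact Submodule.add_mem _ (Submodule.mem_sup_left (hV y hy φ))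
    (Submodule.mem_sup_right (hV' z hz φ))

theorem mul_sup {V V' : Submodule k A} (hV : ∀ b ∈ B, ∀ x ∈ V, b * x ∈ V)
    (hV' : ∀ b ∈ B, ∀ x ∈ V', b * x ∈ V') : ∀ b ∈ B, ∀ x ∈ V ⊔ V', b * x ∈ V ⊔ V' := by
  intro b hb x hx
  obtain ⟨y, hy, z, hz, rfl⟩ := Submodule.mem_sup.1 hx
  rw [mul_add]
  exact Submodule.add_mem _ (Submodule.mem_sup_left (hV b hb y hy))
    (Submodule.mem_sup_right (hV' b hb z hz))

/-- a finite-dimensional stable subspace `V` such that `V0` is contained in `k + V B⁺` -/
theorem enlarge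
    (hJ : ∀ a : A, counit (R := k) a = 0 →
      a ∈ Ideal.span {b : A | b ∈ B ∧ counit (R := k) b = 0})
    (V0 : Submodule k A) [FiniteDimensional k V0] :
    ∃ V : Submodule k A, FiniteDimensional k V ∧ Stable V ∧ V0 ≤ V ∧
      ∀ v ∈ V0, v - algebraMap k A (counit v) ∈ VB B V := by
  classical
  let b := Module.finBasis k V0
  have h1 : ∀ i, ∃ (f : A → A) (t : Finset A), (t : Set A) ⊆ {b : A | b ∈ B ∧ counit (R := k) b = 0} ∧
      ∑ a ∈ t, f a * a = (b i : A) - algebraMap k A (counit (b i : A)) := by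
    intro i
    have h2 := hJ ((b i : A) - algebraMap k A (counit (b i : A))) (by simp)
    obtain ⟨f, t, h3, -, h4⟩ := Submodule.mem_span_iff_exists_finset_subset.1 h2
    exact ⟨f, t, h3, h4⟩
  choose f t ht hft using h1
  obtain ⟨V, hVf, hV, hX⟩ := exists_stable (k := k)
    ((Finset.univ.image fun i => (b i : A)) ∪ Finset.univ.biUnion fun i => (t i).image (f i))
  have h0 : V0 ≤ V := by
    intro v hv
    have h2 := congrArg (V0.subtype) (b.sum_repr ⟨v, hv⟩)
    rw [map_sum] at h2
    have h3 : v = ∑ l, V0.subtype (b.repr ⟨v, hv⟩ l • b l) := h2.symm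
    rw [h3]
    refine Submodule.sum_mem _ fun l _ => ?_
    rw [map_smul]
    refine V.smul_mem _ (hX _ ?_)
    exact Finset.mem_union_left _ (Finset.mem_image_of_mem _ (Finset.mem_univ l))
  refine ⟨V, hVf, hV, h0, fun v hv => ?_⟩
  let L : A →ₗ[k] A := LinearMap.id - Algebra.linearMap k A ∘ₗ counit
  have hL : ∀ a, L a = a - algebraMap k A (counit a) := fun a => rfl
  have h2 := congrArg (V0.subtype) (b.sum_repr ⟨v, hv⟩)
  rw [map_sum] at h2
  have h3 : v = ∑ l, V0.subtype (b.repr ⟨v, hv⟩ l • b l) := h2.symm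
  have h5 : L v = L (∑ l, V0.subtype (b.repr ⟨v, hv⟩ l • b l)) := congrArg L h3
  rw [← hL, h5, map_sum]
  refine Submodule.sum_mem _ fun l _ => ?_
  rw [map_smul, map_smul]
  refine Submodule.smul_mem _ _ ?_
  rw [hL]
  show (b l : A) - algebraMap k A (counit (b l : A)) ∈ VB B V
  rw [← hft]
  refine Submodule.sum_mem _ fun a ha => ?_
  refine Submodule.subset_span ⟨f l a, a, hX _ ?_, (ht l ha).1, (ht l ha).2, mul_comm _ _⟩
  exact Finset.mem_union_right _ (Finset.mem_biUnion.2 ⟨l, Finset.mem_univ _,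
    Finset.mem_image_of_mem _ ha⟩)

/-- A Hopf subalgebra that generates the augmentation ideal is everything. -/
theorem eq_top (hB : IsSub B)
    (hJ : ∀ a : A, counit (R := k) a = 0 →
      a ∈ Ideal.span {b : A | b ∈ B ∧ counit (R := k) b = 0}) (a₀ : A) : a₀ ∈ B := by
  classical
  -- a finite-dimensional stable subspace containing `a₀`
  obtain ⟨V0, hV0f, hV0, ha₀⟩ := exists_stable (k := k) ({a₀} : Finset A)
  have ha₀ : a₀ ∈ V0 := ha₀ a₀ (by simp)
  obtain ⟨V, hVf, hV, h0V, hVB⟩ := enlarge hJ V0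
  obtain ⟨n, w, wd, c, hw, hwv, hc, hcc⟩ := coords V hV
  obtain ⟨N1, hN1⟩ : ∃ N1 : Submodule k A, N1 = B.toSubmodule := ⟨_, rfl⟩
  have hN1' : ∀ a, a ∈ N1 ↔ a ∈ B := fun a => by rw [hN1]; rfl
  have s1 : Stable N1 := fun v hv φ => (hN1' _).2 (ev_mem hB ((hN1' _).1 hv) φ)
  have m1 : ∀ b ∈ B, ∀ x ∈ N1, b * x ∈ N1 := fun b hb x hx =>
    (hN1' _).2 (B.mul_mem hb ((hN1' _).1 hx))
  obtain ⟨N2, hN2⟩ : ∃ N2 : Submodule k A, N2 = N1 ⊔ VA B V0 := ⟨_, rfl⟩
  have s2 : Stable N2 := hN2 ▸ stable_sup s1 (VA_stable hB hV0)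
  have m2 : ∀ b ∈ B, ∀ x ∈ N2, b * x ∈ N2 := hN2 ▸ mul_sup m1 (VA_mul V0)
  -- the relations
  let R1 : Submodule k (Fin n → A) :=
    { carrier := Rel B w N1
      add_mem' := fun {x y} hx hy => ⟨fun j => B.add_mem (hx.1 j) (hy.1 j), by
        simp only [Pi.add_apply, add_mul, Finset.sum_add_distrib]
        exact N1.add_mem hx.2 hy.2⟩
      zero_mem' := ⟨fun j => B.zero_mem, by simp⟩
      smul_mem' := fun a x hx => ⟨fun j => B.smul_mem (hx.1 j) a, by
        simp only [Pi.smul_apply, smul_mul_assoc, ← Finset.smul_sum]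
        exact N1.smul_mem _ hx.2⟩ }
  let ε : (Fin n → A) →ₗ[k] (Fin n → k) := LinearMap.pi fun j => counit ∘ₗ LinearMap.proj j
  have hε : ∀ x j, ε x j = counit (x j) := fun x j => rfl
  obtain ⟨K, hK⟩ : ∃ K : Submodule k (Fin n → k), K = R1.map ε := ⟨_, rfl⟩
  obtain ⟨s, hs⟩ : ∃ s, s = Module.finrank k K := ⟨_, rfl⟩
  have hεdet : ∀ {r : ℕ} (x : Fin r → Fin n → A) (i : Fin r → Fin n),
      counit (R := k) (Matrix.of fun l m => x l (i m)).det =
        (Matrix.of fun l m => ε (x l) (i m)).det := by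
    intro r x i
    exact RingHom.map_det (Bialgebra.counitAlgHom k A : A →+* k) (Matrix.of fun l m => x l (i m))
  -- the ideal of the minors of size `s` of the first relations contains `1`
  have h1 : (1 : A) ∈ MI B w N1 s := by
    have bK : Module.Basis (Fin s) k K := (Module.finBasis k K).reindex (finCongr hs.symm)
    have hx : ∀ l, ∃ x, x ∈ R1 ∧ ε x = (bK l : Fin n → k) := by
      intro l
      have h : (bK l : Fin n → k) ∈ R1.map ε := by rw [← hK]; exact (bK l).2
      exact h
    choose x hx hxe using hx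
    have hli : LinearIndependent k (fun l => (bK l : Fin n → k)) :=
      bK.linearIndependent.map' K.subtype (LinearMap.ker_eq_bot.2 Subtype.val_injective)
    obtain ⟨i, hi⟩ := minor _ hli
    rcases MI_alt hc hcc s1 hB s with h | h
    · exfalso
      apply hi
      have h2 := h _ (det_mem_MI (fun l => hx l) i)
      have h3 := hεdet x i
      rw [h2, map_zero] at h3
      rw [h3]
      congr 1
      ext l m
      simp only [Matrix.of_apply]
      rw [hxe]
    · exact h
  -- the images of the second relations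
  have hVBw : ∀ z ∈ VB B V, ∃ β : Fin n → A, (∀ j, β j ∈ B ∧ counit (R := k) (β j) = 0) ∧
      z = ∑ j, β j * w j := by
    intro z hz
    induction hz using Submodule.span_induction with
    | mem z h =>
      obtain ⟨y, b, hy, hb, hb0, rfl⟩ := h
      refine ⟨fun j => wd j y • b, fun j => ⟨B.smul_mem hb _, by rw [map_smul, hb0, smul_zero]⟩, ?_⟩
      conv_lhs => rw [hwv y hy]
      rw [Finset.mul_sum]
      refine Finset.sum_congr rfl fun j _ => ?_
      rw [mul_smul_comm, smul_mul_assoc]
    | zero => exact ⟨0, fun j => ⟨B.zero_mem, by simp⟩, by simp⟩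
    | add x y _ _ hx hy =>
      obtain ⟨β, hβ, rfl⟩ := hx
      obtain ⟨γ, hγ, rfl⟩ := hy
      refine ⟨β + γ, fun j => ⟨B.add_mem (hβ j).1 (hγ j).1, ?_⟩, ?_⟩
      · rw [Pi.add_apply, map_add, (hβ j).2, (hγ j).2, add_zero]
      · simp only [Pi.add_apply, add_mul, Finset.sum_add_distrib]
    | smul a x _ hx =>
      obtain ⟨β, hβ, rfl⟩ := hx
      refine ⟨a • β, fun j => ⟨B.smul_mem (hβ j).1 a, ?_⟩, ?_⟩
      · rw [Pi.smul_apply, map_smul, (hβ j).2, smul_zero]
      · simp only [Pi.smul_apply, smul_mul_assoc, ← Finset.smul_sum]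
  have hN2' : N2 ≤ N1 ⊔ VB B V := by
    rw [hN2]
    refine sup_le le_sup_left (Submodule.span_le.2 ?_)
    rintro _ ⟨v, b, hv, hb, rfl⟩
    have e : b * v = b * algebraMap k A (counit v) + b * (v - algebraMap k A (counit v)) := by ring
    rw [SetLike.mem_coe, e]
    refine Submodule.add_mem _ (Submodule.mem_sup_left ?_) (Submodule.mem_sup_right ?_)
    · exact (hN1' _).2 (B.mul_mem hb (B.algebraMap_mem _))
    · exact VB_mul V b hb _ (hVB v hv)
  have h2 : ∀ x ∈ Rel B w N2, ε x ∈ K := by
    intro x hx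
    obtain ⟨b0, hb0, z, hz, hbz⟩ := Submodule.mem_sup.1 (hN2' hx.2)
    obtain ⟨β, hβ, rfl⟩ := hVBw z hz
    rw [hK]
    refine ⟨x - β, ⟨fun j => B.sub_mem (hx.1 j) (hβ j).1, ?_⟩, ?_⟩
    · simp only [Pi.sub_apply, sub_mul, Finset.sum_sub_distrib]
      rw [← hbz, add_sub_cancel_right]
      exact hb0
    · ext j
      rw [hε, hε, Pi.sub_apply, map_sub, (hβ j).2, sub_zero]
  -- the minors of size `s + 1` of the second relations vanish
  have h3 : ∀ z ∈ MI B w N2 (s + 1), z = 0 := by
    have h4 : ∀ z ∈ MI B w N2 (s + 1), counit (R := k) z = 0 := by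
      intro z hz
      induction hz using Submodule.span_induction with
      | mem z h =>
        obtain ⟨b, x, i, hb, hx, rfl⟩ := h
        rw [Bialgebra.counit_mul, hεdet,
          minor_zero K (by omega) (fun l => ε (x l)) (fun l => h2 _ (hx l)) i, mul_zero]
      | zero => rw [map_zero]
      | add x y _ _ hx hy => rw [map_add, hx, hy, add_zero]
      | smul a x _ hx => rw [map_smul, hx, smul_zero]
    rcases MI_alt hc hcc s2 hB (s + 1) with h | h
    · exact h
    · have := h4 1 h
      rw [Bialgebra.counit_one] at this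
      exact absurd this one_ne_zero
  have h12 : ∀ x ∈ Rel B w N1, x ∈ Rel B w N2 := fun x hx =>
    ⟨hx.1, by rw [hN2]; exact Submodule.mem_sup_left hx.2⟩
  -- the two sets of relations are equal
  have h5 : ∀ v ∈ Rel B w N2, ∀ z ∈ MI B w N1 s, (fun j => z * v j) ∈ R1 := by
    intro v hv z hz
    induction hz using Submodule.span_induction with
    | mem z h =>
      obtain ⟨b, x, i, hb, hx, rfl⟩ := h
      have hcx : ∀ l, (Fin.cons v x : Fin (s + 1) → Fin n → A) l ∈ Rel B w N2 := by
        intro l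
        refine Fin.cases ?_ (fun l => ?_) l
        · exact hv
        · exact h12 _ (hx l)
      have h6 : ∀ j, (Matrix.of fun l m => x l (i m)).det * v j = _ := fun j =>
        cramer x v i j (h3 _ (det_mem_MI hcx (Fin.cons j i)))
      have h7 : (fun j => b * (Matrix.of fun l m => x l (i m)).det * v j) = ∑ l : Fin s,
          (fun j => (b * (- ((-1) ^ (l : ℕ).succ * (Matrix.of fun a b =>
            (Fin.cons v x : Fin (s + 1) → Fin n → A) (l.succ.succAbove a) (i b)).det))) *
              x l j) := by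
        funext j
        rw [mul_assoc, h6, Finset.mul_sum, Finset.sum_apply]
        refine Finset.sum_congr rfl fun l _ => ?_
        rw [mul_assoc]
      rw [h7]
      refine Submodule.sum_mem _ fun l _ => ?_
      have h8 : b * (- ((-1) ^ (l : ℕ).succ * (Matrix.of fun a b =>
            (Fin.cons v x : Fin (s + 1) → Fin n → A) (l.succ.succAbove a) (i b)).det)) ∈ B := by
        refine B.mul_mem hb (B.neg_mem (B.mul_mem ?_ (det_mem _ fun a b => (hcx _).1 _)))
        exact B.pow_mem (B.neg_mem B.one_mem) _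
      refine ⟨fun j => B.mul_mem h8 ((hx l).1 j), ?_⟩
      simp only [mul_assoc _ (x l _) _, ← Finset.mul_sum]
      exact m1 _ h8 _ (hx l).2
    | zero => simp only [zero_mul]; exact R1.zero_mem
    | add x y _ _ hx hy => simp only [add_mul]; exact R1.add_mem hx hy
    | smul a x _ hx => simp only [smul_mul_assoc]; exact R1.smul_mem a hx
  -- the conclusion
  have h6 : (fun j => algebraMap k A (wd j a₀)) ∈ Rel B w N2 := by
    refine ⟨fun j => B.algebraMap_mem _, ?_⟩
    have e : ∑ j, algebraMap k A (wd j a₀) * w j = a₀ := by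
      conv_rhs => rw [hwv a₀ (h0V ha₀)]
      refine Finset.sum_congr rfl fun j _ => ?_
      rw [Algebra.smul_def]
    rw [e, hN2]
    exact Submodule.mem_sup_right (Submodule.subset_span ⟨a₀, 1, ha₀, B.one_mem, (one_mul _).symm⟩)
  have h7 := h5 _ h6 1 h1
  simp only [one_mul] at h7
  have h8 := h7.2
  have e : ∑ j, algebraMap k A (wd j a₀) * w j = a₀ := by
    conv_rhs => rw [hwv a₀ (h0V ha₀)]
    refine Finset.sum_congr rfl fun j _ => ?_
    rw [Algebra.smul_def]
  rw [e] at h8
  exact (hN1' _).1 h8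

end final

end Pool.Agent.Q12.PH.Tak
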