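import Pool.Agent.Q12.PH.Step
import Pool.Agent.Q12.PH.Tak

/-!
# Epimorphisms of Poisson Hopf algebras are surjective
-/

set_option autoImplicit false

open TensorProduct Coalgebra HopfAlgebra

universe u

namespace Pool.Agent.Q12.PH

variable {k H A : Type u} [Field k] [CommRing H] [HopfAlgebra k H] [CommRing A] [HopfAlgebra k A]
  {R : Poisson k H} {P : Poisson k A}

theorem isSub_range (f : H →ₐc[k] A) : Tak.IsSub (ah f).range := by
  classical
  refine ⟨?_, ?_⟩
  · rintro _ ⟨x, rfl⟩
    obtain ⟨s, hs⟩ := TensorProduct.exists_finset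
      (Algebra.TensorProduct.map (ah f).rangeRestrict (ah f).rangeRestrict (comul (R := k) x))
    have hinj : Function.Injective (fun i : (ah f).range × (ah f).range => ((i.1 : A), (i.2 : A))) := by
      intro i j h
      exact Prod.ext (Subtype.ext (congrArg Prod.fst h)) (Subtype.ext (congrArg Prod.snd h))
    refine ⟨s.image (fun i => ((i.1 : A), (i.2 : A))), ?_, ?_⟩
    · intro i hi
      obtain ⟨j, _, rfl⟩ := Finset.mem_image.1 hi
      exact ⟨j.1.2, j.2.2⟩
    · rw [Finset.sum_image (fun i _ j _ h => hinj h)]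
      have h1 := congrArg (Algebra.TensorProduct.map (ah f).range.val (ah f).range.val) hs
      rw [map_sum] at h1
      refine Eq.trans ?_ h1
      show comul (f x) = _
      rw [comul_f]
      generalize comul (R := k) x = y
      induction y using TensorProduct.induction_on with
      | zero => simp
      | add y y' h h' => simp only [map_add, h, h']
      | tmul a b => rfl
  · rintro _ ⟨x, rfl⟩
    exact ⟨antipode k x, map_antipode f x⟩

/-- Epimorphisms of Poisson Hopf algebras are surjective. -/
theorem surj (hR : IsPB R) (hP : IsPB P) (f : H →ₐc[k] A)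
    (hf : ∀ x y, f (R.br x y) = P.br (f x) (f y))
    (hepi : ∀ (C : Type u) [CommRing C] [HopfAlgebra k C] (Q : Poisson k C), IsPB Q →
      ∀ g h : A →ₐc[k] C, IsHom P Q (g : A →ₐ[k] C) → IsHom P Q (h : A →ₐ[k] C) →
        (∀ x, g (f x) = h (f x)) → g = h) : Function.Surjective f := by
  have hT := epi_alg hP f hepi
  have h1 : ∀ a : A, counit (R := k) a = 0 →
      a ∈ Ideal.span {b : A | b ∈ (ah f).range ∧ counit (R := k) b = 0} := by
    intro a ha
    have h2 := step3 hR hP f hf hT a ha
    refine Ideal.span_mono ?_ h2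
    rintro _ ⟨x, hx, rfl⟩
    refine ⟨⟨x, rfl⟩, ?_⟩
    rw [← hx]
    exact CoalgHomClass.counit_comp_apply f x
  intro a
  obtain ⟨x, hx⟩ := Tak.eq_top (isSub_range f) h1 a
  exact ⟨x, hx⟩

end Pool.Agent.Q12.PH
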