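import Pool.Agent.Q12.PH.Push2

/-!
# Poisson modules and square zero extensions
-/

set_option autoImplicit false
set_option linter.unusedSectionVars false

open TensorProduct Coalgebra HopfAlgebra

universe u

namespace Pool.Agent.Q12.PH

section pmod

variable {k A M : Type u} [Field k] [CommRing A] [Algebra k A] (P : Poisson k A)
  [AddCommGroup M] [Module k M] [Module A M] [IsScalarTower k A M]
  [Module Aᵐᵒᵖ M] [IsCentralScalar A M] [IsScalarTower k Aᵐᵒᵖ M]

/-- a Poisson module -/
structure PMod {k A : Type u} (M : Type u) [Field k] [CommRing A] [Algebra k A] (P : Poisson k A)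
    [AddCommGroup M] [Module k M] [Module A M] where
  act : A →ₗ[k] M →ₗ[k] M
  act_smul : ∀ (a c : A) (m : M), act a (c • m) = P.br a c • m + c • act a m
  mul_act : ∀ (a b : A) (m : M), act (a * b) m = a • act b m + b • act a m
  br_act : ∀ (a b : A) (m : M), act (P.br a b) m = act a (act b m) - act b (act a m)

variable {P} (N : PMod M P)

/-- the bracket of the square zero extension -/
noncomputable def sqb : TrivSqZeroExt A M →ₗ[k] TrivSqZeroExt A M →ₗ[k] TrivSqZeroExt A M :=
  LinearMap.mk₂ k (fun x y => TrivSqZeroExt.inl (P.br x.fst y.fst) +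
    TrivSqZeroExt.inr (N.act x.fst y.snd - N.act y.fst x.snd))
  (fun x y z => by
    apply TrivSqZeroExt.ext
    · simp
    · simp; abel)
  (fun c x y => by
    apply TrivSqZeroExt.ext
    · simp
    · simp [smul_sub])
  (fun x y z => by
    apply TrivSqZeroExt.ext
    · simp
    · simp; abel)
  (fun c x y => by
    apply TrivSqZeroExt.ext
    · simp
    · simp [smul_sub])

theorem sqb_fst (x y : TrivSqZeroExt A M) : (sqb N x y).fst = P.br x.fst y.fst := by
  simp [sqb]

theorem sqb_snd (x y : TrivSqZeroExt A M) :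
    (sqb N x y).snd = N.act x.fst y.snd - N.act y.fst x.snd := by
  simp [sqb]

/-- the Poisson algebra structure of the square zero extension -/
noncomputable def sqz : Poisson k (TrivSqZeroExt A M) where
  br := sqb N
  self x := by
    apply TrivSqZeroExt.ext
    · rw [sqb_fst, P.self]; rfl
    · rw [sqb_snd, sub_self]; rfl
  jac x y z := by
    apply TrivSqZeroExt.ext
    · simp only [sqb_fst, TrivSqZeroExt.fst_add]
      exact P.jac _ _ _
    · simp only [sqb_snd, sqb_fst, TrivSqZeroExt.snd_add, map_sub, N.br_act]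
      abel
  leib x y z := by
    apply TrivSqZeroExt.ext
    · simp only [sqb_fst, TrivSqZeroExt.fst_add, TrivSqZeroExt.fst_mul, P.leib]
    · simp only [sqb_snd, sqb_fst, TrivSqZeroExt.snd_add, TrivSqZeroExt.snd_mul,
        TrivSqZeroExt.fst_mul, N.mul_act, map_add, N.act_smul, op_smul_eq_smul, smul_sub]
      abel

/-- the second section -/
noncomputable def sec (m : M) : A →ₐ[k] TrivSqZeroExt A M where
  toFun a := TrivSqZeroExt.inl a + TrivSqZeroExt.inr (N.act a m)
  map_one' := by
    have h := N.mul_act 1 1 m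
    rw [mul_one, one_smul] at h
    have h0 : N.act 1 m = 0 := by simpa using h
    rw [h0]; simp
  map_zero' := by simp
  map_mul' a b := by
    apply TrivSqZeroExt.ext
    · simp
    · simp [N.mul_act]
  map_add' a b := by
    apply TrivSqZeroExt.ext
    · simp
    · simp
  commutes' r := by
    have h := N.mul_act 1 1 m
    rw [mul_one, one_smul] at h
    have h0 : N.act 1 m = 0 := by simpa using h
    rw [Algebra.algebraMap_eq_smul_one, map_smul, LinearMap.smul_apply, h0, smul_zero]
    show _ = (TrivSqZeroExt.inl (algebraMap k A r) : TrivSqZeroExt A M)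
    rw [TrivSqZeroExt.inr_zero, add_zero, Algebra.algebraMap_eq_smul_one]

theorem sec_hom (m : M) : IsHom P (sqz N) (sec N m) := by
  intro a b
  show TrivSqZeroExt.inl _ + TrivSqZeroExt.inr _ = sqb N (TrivSqZeroExt.inl _ + TrivSqZeroExt.inr _)
    (TrivSqZeroExt.inl _ + TrivSqZeroExt.inr _)
  apply TrivSqZeroExt.ext
  · simp [sqb_fst]
  · simp [sqb_snd, N.br_act, sub_eq_add_neg]

theorem inl_hom : IsHom P (sqz N) (TrivSqZeroExt.inlAlgHom k A M) := by
  intro a b
  show TrivSqZeroExt.inl _ = sqb N (TrivSqZeroExt.inl _) (TrivSqZeroExt.inl _)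
  apply TrivSqZeroExt.ext
  · simp [sqb_fst]
  · simp [sqb_snd]

variable {H : Type u} [CommRing H] [Algebra k H] (f : H →ₐ[k] A)

/-- the test object of a Poisson module -/
noncomputable def tmod (m : M) (hm : ∀ x, N.act (f x) m = 0) : Tst P f where
  D := TrivSqZeroExt A M
  Q := sqz N
  g := TrivSqZeroExt.inlAlgHom k A M
  h := sec N m
  hg := inl_hom N
  hh := sec_hom N m
  eq x := by
    show (TrivSqZeroExt.inl (f x) : TrivSqZeroExt A M) =
      TrivSqZeroExt.inl (f x) + TrivSqZeroExt.inr (N.act (f x) m)
    rw [hm, TrivSqZeroExt.inr_zero, add_zero]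

theorem act_zero (hT : ∀ (T : Tst P f) (a : A), T.g a = T.h a) (m : M)
    (hm : ∀ x, N.act (f x) m = 0) (a : A) : N.act a m = 0 := by
  have h := hT (tmod N f m hm) a
  have e1 : (tmod N f m hm).h a = (TrivSqZeroExt.inl a + TrivSqZeroExt.inr (N.act a m) :
    TrivSqZeroExt A M) := rfl
  have e2 : (tmod N f m hm).g a = (TrivSqZeroExt.inl a : TrivSqZeroExt A M) := rfl
  rw [e1, e2] at h
  have h3 := congrArg (TrivSqZeroExt.snd (R := A) (M := M)) h
  simpa using h3.symm

end pmod

section rep

variable {k A E : Type u} [Field k] [CommRing A] [HopfAlgebra k A] (P : Poisson k A)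
  [AddCommGroup E] [Module k E] (ρ : A →ₗ[k] Module.End k E)

/-- the auxiliary map -/
noncomputable def Xi : A ⊗[k] A →ₗ[k] (A ⊗[k] E →ₗ[k] A ⊗[k] E) :=
  TensorProduct.lift ((TensorProduct.mapBilinear (RingHom.id k) A E A E).compl₁₂
    (LinearMap.mul k A) ρ)

theorem Xi_tmul (x y c : A) (e : E) : Xi ρ (x ⊗ₜ y) (c ⊗ₜ e) = (x * c) ⊗ₜ ρ y e := by
  simp [Xi]

theorem Xi_smul (t : A ⊗[k] A) (c : A) (m : A ⊗[k] E) : Xi ρ t (c • m) = c • Xi ρ t m := by
  induction t using TensorProduct.induction_on with
  | zero => simp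
  | add x y hx hy => rw [map_add, LinearMap.add_apply, hx, hy, LinearMap.add_apply, smul_add]
  | tmul x y =>
    induction m using TensorProduct.induction_on with
    | zero => simp
    | add m m' h h' => rw [smul_add, map_add, h, h', map_add, smul_add]
    | tmul c' e =>
      rw [TensorProduct.smul_tmul', Xi_tmul, Xi_tmul, TensorProduct.smul_tmul', smul_eq_mul,
        smul_eq_mul]
      congr 1
      ring

/-- contraction with the counit on the right -/
noncomputable def cr : A ⊗[k] A →ₗ[k] A := TensorProduct.rid k A ∘ₗ counit.lTensor A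

theorem cr_tmul (x y : A) : cr (x ⊗ₜ[k] y) = counit (R := k) y • x := by simp [cr]

theorem cr_comul (a : A) : cr (comul (R := k) a) = a := by
  simp [cr, Coalgebra.lTensor_counit_comul]

variable {ρ} (h1 : ∀ a b, ρ (a * b) = counit (R := k) a • ρ b + counit (R := k) b • ρ a)
  (h2 : ∀ a b, ρ (P.br a b) = ρ a * ρ b - ρ b * ρ a)

include h1 in
theorem Xi_mul (s t : A ⊗[k] A) (m : A ⊗[k] E) :
    Xi ρ (s * t) m = cr s • Xi ρ t m + cr t • Xi ρ s m := by
  induction s using TensorProduct.induction_on with
  | zero => simp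
  | add x y hx hy =>
    rw [add_mul, map_add, LinearMap.add_apply, hx, hy, map_add, map_add, LinearMap.add_apply,
      add_smul, smul_add]
    abel
  | tmul x y =>
    induction t using TensorProduct.induction_on with
    | zero => simp
    | add z w hz hw =>
      rw [mul_add, map_add, LinearMap.add_apply, hz, hw, map_add, map_add, LinearMap.add_apply,
        add_smul, smul_add]
      abel
    | tmul z w =>
      induction m using TensorProduct.induction_on with
      | zero => simp
      | add m m' h h' => simp only [map_add, h, h', smul_add]; abel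
      | tmul c e =>
        rw [Algebra.TensorProduct.tmul_mul_tmul, Xi_tmul, Xi_tmul, Xi_tmul, cr_tmul, cr_tmul, h1,
          LinearMap.add_apply, LinearMap.smul_apply, LinearMap.smul_apply, TensorProduct.tmul_add,
          TensorProduct.tmul_smul, TensorProduct.tmul_smul, TensorProduct.smul_tmul',
          TensorProduct.smul_tmul', TensorProduct.smul_tmul', TensorProduct.smul_tmul',
          smul_eq_mul, smul_eq_mul, smul_mul_assoc, smul_mul_assoc]
        congr 3
        · ring
        · ring

/-- the first half of the bracket of the tensor product -/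
noncomputable def tb1 (p : A →ₗ[k] A →ₗ[k] A) : A ⊗[k] A →ₗ[k] A ⊗[k] A →ₗ[k] A ⊗[k] A :=
  TensorProduct.map₂ p (LinearMap.mul k A)

/-- the second half -/
noncomputable def tb2 (p : A →ₗ[k] A →ₗ[k] A) : A ⊗[k] A →ₗ[k] A ⊗[k] A →ₗ[k] A ⊗[k] A :=
  TensorProduct.map₂ (LinearMap.mul k A) p

theorem tb1_tmul (p : A →ₗ[k] A →ₗ[k] A) (x y z w : A) :
    tb1 p (x ⊗ₜ y) (z ⊗ₜ w) = p x z ⊗ₜ (y * w) := by simp [tb1]

theorem tb2_tmul (p : A →ₗ[k] A →ₗ[k] A) (x y z w : A) :
    tb2 p (x ⊗ₜ y) (z ⊗ₜ w) = (x * z) ⊗ₜ p y w := by simp [tb2]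

theorem tb_eq (p : A →ₗ[k] A →ₗ[k] A) (s t : A ⊗[k] A) : tb p p s t = tb1 p s t + tb2 p s t := rfl

include h1 in
theorem Xi_tb1 (s t : A ⊗[k] A) (m : A ⊗[k] E) : Xi ρ (tb1 P.br s t) m =
    Xi ρ ((P.br (cr s)).rTensor A t) m - Xi ρ ((P.br (cr t)).rTensor A s) m := by
  induction s using TensorProduct.induction_on with
  | zero => simp
  | add x y hx hy =>
    simp only [map_add, LinearMap.add_apply, hx, hy, LinearMap.rTensor_add]
    abel
  | tmul x y =>
    induction t using TensorProduct.induction_on with
    | zero => simp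
    | add z w hz hw =>
      simp only [map_add, LinearMap.add_apply, hz, hw, LinearMap.rTensor_add]
      abel
    | tmul z w =>
      induction m using TensorProduct.induction_on with
      | zero => simp
      | add m m' h h' => simp only [map_add, h, h']; abel
      | tmul c e =>
        rw [tb1_tmul, LinearMap.rTensor_tmul, LinearMap.rTensor_tmul, Xi_tmul, Xi_tmul, Xi_tmul,
          cr_tmul, cr_tmul, h1, map_smul, map_smul, LinearMap.smul_apply, LinearMap.smul_apply,
          LinearMap.add_apply, LinearMap.smul_apply, LinearMap.smul_apply, TensorProduct.tmul_add,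
          TensorProduct.tmul_smul, TensorProduct.tmul_smul, smul_mul_assoc, smul_mul_assoc,
          ← TensorProduct.smul_tmul', ← TensorProduct.smul_tmul', P.skew z x, neg_mul,
          TensorProduct.neg_tmul, smul_neg, sub_neg_eq_add]

include h2 in
theorem Xi_tb2 (s t : A ⊗[k] A) (m : A ⊗[k] E) : Xi ρ (tb2 P.br s t) m =
    Xi ρ s (Xi ρ t m) - Xi ρ t (Xi ρ s m) := by
  induction s using TensorProduct.induction_on with
  | zero => simp
  | add x y hx hy =>
    simp only [map_add, LinearMap.add_apply, hx, hy]
    abel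
  | tmul x y =>
    induction t using TensorProduct.induction_on with
    | zero => simp
    | add z w hz hw =>
      simp only [map_add, LinearMap.add_apply, hz, hw]
      abel
    | tmul z w =>
      induction m using TensorProduct.induction_on with
      | zero => simp
      | add m m' h h' => simp only [map_add, h, h']; abel
      | tmul c e =>
        rw [tb2_tmul, Xi_tmul, Xi_tmul, Xi_tmul, Xi_tmul, Xi_tmul, h2, LinearMap.sub_apply,
          Module.End.mul_apply, Module.End.mul_apply, TensorProduct.tmul_sub]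
        congr 2 <;> ring

theorem Xi_rT (a : A) (t : A ⊗[k] A) (m : A ⊗[k] E) :
    (P.br a).rTensor E (Xi ρ t m) = Xi ρ ((P.br a).rTensor A t) m +
      Xi ρ t ((P.br a).rTensor E m) := by
  induction t using TensorProduct.induction_on with
  | zero => simp
  | add z w hz hw =>
    simp only [map_add, LinearMap.add_apply, hz, hw]
    abel
  | tmul z w =>
    induction m using TensorProduct.induction_on with
    | zero => simp
    | add m m' h h' => simp only [map_add, h, h']; abel
    | tmul c e =>
      rw [LinearMap.rTensor_tmul, LinearMap.rTensor_tmul, Xi_tmul, Xi_tmul, Xi_tmul,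
        LinearMap.rTensor_tmul, P.leib, TensorProduct.add_tmul]

theorem rT_smul (a c : A) (m : A ⊗[k] E) : (P.br a).rTensor E (c • m) =
    P.br a c • m + c • (P.br a).rTensor E m := by
  induction m using TensorProduct.induction_on with
  | zero => simp
  | add m m' h h' => simp only [smul_add, map_add, h, h']; abel
  | tmul c' e =>
    rw [TensorProduct.smul_tmul', LinearMap.rTensor_tmul, LinearMap.rTensor_tmul, smul_eq_mul,
      P.leib, TensorProduct.smul_tmul', TensorProduct.smul_tmul', TensorProduct.add_tmul]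
    rfl

theorem rT_mul (a b : A) (m : A ⊗[k] E) : (P.br (a * b)).rTensor E m =
    a • (P.br b).rTensor E m + b • (P.br a).rTensor E m := by
  induction m using TensorProduct.induction_on with
  | zero => simp
  | add m m' h h' => simp only [smul_add, map_add, h, h']; abel
  | tmul c' e =>
    rw [LinearMap.rTensor_tmul, LinearMap.rTensor_tmul, LinearMap.rTensor_tmul,
      P.leib', TensorProduct.smul_tmul', TensorProduct.smul_tmul', TensorProduct.add_tmul,
      smul_eq_mul, smul_eq_mul, mul_comm b, add_comm]

theorem rT_br (a b : A) (m : A ⊗[k] E) : (P.br (P.br a b)).rTensor E m =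
    (P.br a).rTensor E ((P.br b).rTensor E m) - (P.br b).rTensor E ((P.br a).rTensor E m) := by
  induction m using TensorProduct.induction_on with
  | zero => simp
  | add m m' h h' => simp only [map_add, h, h']; abel
  | tmul c' e =>
    rw [LinearMap.rTensor_tmul, LinearMap.rTensor_tmul, LinearMap.rTensor_tmul,
      LinearMap.rTensor_tmul, LinearMap.rTensor_tmul, P.jac a b c', TensorProduct.add_tmul,
      add_sub_cancel_right]

variable {P}

/-- the Poisson module of a representation -/
noncomputable def repMod (hP : IsPB P) : PMod (A ⊗[k] E) P where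
  act := LinearMap.rTensorHom E ∘ₗ P.br + Xi ρ ∘ₗ comul
  act_smul a c m := by
    show (P.br a).rTensor E (c • m) + Xi ρ (comul a) (c • m) =
      P.br a c • m + c • ((P.br a).rTensor E m + Xi ρ (comul a) m)
    rw [rT_smul, Xi_smul, smul_add, add_assoc]
  mul_act a b m := by
    show (P.br (a * b)).rTensor E m + Xi ρ (comul (a * b)) m =
      a • ((P.br b).rTensor E m + Xi ρ (comul b) m) + b • ((P.br a).rTensor E m + Xi ρ (comul a) m)
    rw [Bialgebra.comul_mul, Xi_mul h1, cr_comul, cr_comul, rT_mul, smul_add, smul_add]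
    abel
  br_act a b m := by
    show (P.br (P.br a b)).rTensor E m + Xi ρ (comul (P.br a b)) m =
      ((P.br a).rTensor E ((P.br b).rTensor E m + Xi ρ (comul b) m) +
        Xi ρ (comul a) ((P.br b).rTensor E m + Xi ρ (comul b) m)) -
      ((P.br b).rTensor E ((P.br a).rTensor E m + Xi ρ (comul a) m) +
        Xi ρ (comul b) ((P.br a).rTensor E m + Xi ρ (comul a) m))
    rw [hP.co, tb_eq, map_add, LinearMap.add_apply, Xi_tb1 P h1, Xi_tb2 P h2, cr_comul, cr_comul,
      rT_br]
    simp only [map_add, Xi_rT]
    abel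

theorem repMod_one (hP : IsPB P) (a : A) (e : E) : (repMod h1 h2 hP).act a (1 ⊗ₜ e) =
    Xi ρ (comul a) (1 ⊗ₜ e) := by
  show (P.br a).rTensor E (1 ⊗ₜ e) + Xi ρ (comul a) (1 ⊗ₜ e) = _
  rw [LinearMap.rTensor_tmul, P.one_right, TensorProduct.zero_tmul, zero_add]

/-- contraction of the first factor with the counit -/
noncomputable def cl : A ⊗[k] E →ₗ[k] E := TensorProduct.lid k E ∘ₗ counit.rTensor E

theorem cl_tmul (x : A) (e : E) : cl (x ⊗ₜ[k] e) = counit (R := k) x • e := by simp [cl]

theorem cl_Xi (a : A) (e : E) : cl (Xi ρ (comul a) (1 ⊗ₜ e)) = ρ a e := by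
  have h : ∀ t : A ⊗[k] A, cl (Xi ρ t (1 ⊗ₜ e)) =
      ρ (TensorProduct.lid k A (counit.rTensor A t)) e := by
    intro t
    induction t using TensorProduct.induction_on with
    | zero => simp
    | add z w hz hw => simp only [map_add, LinearMap.add_apply, hz, hw]
    | tmul z w => rw [Xi_tmul, mul_one, cl_tmul]; simp
  rw [h, Coalgebra.rTensor_counit_comul]
  simp

end rep

end Pool.Agent.Q12.PH
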