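import Mathlib

/-!
# The Poincaré–Birkhoff–Witt representation in all universes, and relative modules

The first part is the file `Pool/Agent/H67/OL/PBW2.lean` of the starting files, with universe-polymorphic
types. The second part constructs, for a Lie subalgebra `S` of `L`, a module with a vector whose
annihilator in `L` is `S`.
-/

set_option autoImplicit false
set_option linter.unusedSectionVars false

namespace Pool.Agent.Q12.PH.PBW

open MvPolynomial


variable {K : Type*} [Field K] {L : Type*} [LieRing L] [LieAlgebra K L] {I : Type*} [LinearOrder I]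

/-- the monomial with coefficient one -/
noncomputable abbrev mo (K : Type*) [Field K] {I : Type*} (m : I →₀ ℕ) : MvPolynomial I K :=
  monomial m 1

/-- degree of a monomial -/
noncomputable def dg (m : I →₀ ℕ) : ℕ := m.sum (fun _ e => e)

lemma dg_add (m : I →₀ ℕ) (j : I) : dg (m + Finsupp.single j 1) = dg m + 1 := by
  unfold dg
  rw [Finsupp.sum_add_index' (by simp) (by simp), Finsupp.sum_single_index (by simp)]

lemma td_mo (m : I →₀ ℕ) : (mo K m).totalDegree = dg m :=
  totalDegree_monomial m one_ne_zero

lemma X_mul_mo (i : I) (m : I →₀ ℕ) : X i * mo K m = mo K (m + Finsupp.single i 1) := by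
  rw [mo, X, monomial_mul, one_mul, add_comm]

/-- the minimum of `i` and the support of `m` -/
noncomputable def mn (i : I) (m : I →₀ ℕ) : I :=
  (insert i m.support).min' (Finset.insert_nonempty _ _)

lemma mn_of_le {i : I} {m : I →₀ ℕ} (h : ∀ k ∈ m.support, i ≤ k) : mn i m = i := by
  apply le_antisymm
  · exact Finset.min'_le _ _ (Finset.mem_insert_self _ _)
  · apply Finset.le_min'
    intro k hk
    rw [Finset.mem_insert] at hk
    rcases hk with rfl | hk
    · exact le_rfl
    · exact h k hk

lemma supp_add (m : I →₀ ℕ) (j k : I) :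
    k ∈ (m + Finsupp.single j 1).support ↔ k = j ∨ k ∈ m.support := by
  rw [Finsupp.mem_support_iff, Finsupp.mem_support_iff, Finsupp.add_apply, Finsupp.single_apply]
  by_cases h : j = k
  · subst h; simp
  · rw [if_neg h]
    have : ¬ k = j := fun hh => h hh.symm
    simp [this]

lemma mn_of_lt {i j : I} {m : I →₀ ℕ} (h : ∀ k ∈ m.support, j ≤ k) (hji : j < i) :
    mn i (m + Finsupp.single j 1) = j := by
  apply le_antisymm
  · exact Finset.min'_le _ _ (Finset.mem_insert_of_mem ((supp_add m j j).2 (Or.inl rfl)))
  · apply Finset.le_min'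
    intro k hk
    rw [Finset.mem_insert, supp_add] at hk
    rcases hk with rfl | rfl | hk
    · exact hji.le
    · exact le_rfl
    · exact h k hk

/-- decomposition of a monomial -/
lemma dec (i : I) (m : I →₀ ℕ) : (∀ k ∈ m.support, i ≤ k) ∨
    ∃ (j : I) (m' : I →₀ ℕ), m = m' + Finsupp.single j 1 ∧ j < i ∧ (∀ k ∈ m'.support, j ≤ k) := by
  by_cases h : ∀ k ∈ m.support, i ≤ k
  · exact Or.inl h
  · right
    push Not at h
    obtain ⟨k, hk, hki⟩ := h
    have hne : m.support.Nonempty := ⟨k, hk⟩
    set j := m.support.min' hne with hj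
    have hjm : j ∈ m.support := Finset.min'_mem _ _
    have hle : Finsupp.single j 1 ≤ m := by
      rw [Finsupp.single_le_iff]
      exact Nat.one_le_iff_ne_zero.2 (Finsupp.mem_support_iff.1 hjm)
    refine ⟨j, m - Finsupp.single j 1, (tsub_add_cancel_of_le hle).symm,
      (Finset.min'_le _ _ hk).trans_lt hki, ?_⟩
    intro k' hk'
    apply Finset.min'_le
    have : k' ∈ (m - Finsupp.single j 1 + Finsupp.single j 1).support :=
      (supp_add _ _ _).2 (Or.inr hk')
    rwa [tsub_add_cancel_of_le hle] at this

lemma lin_ext {W : Type*} [AddCommGroup W] [Module K W] (φ ψ : MvPolynomial I K →ₗ[K] W) (n : ℕ)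
    (h : ∀ m : I →₀ ℕ, dg m ≤ n → φ (mo K m) = ψ (mo K m)) (p : MvPolynomial I K)
    (hp : p.totalDegree ≤ n) : φ p = ψ p := by
  rw [p.as_sum, map_sum, map_sum]
  apply Finset.sum_congr rfl
  intro m hm
  have h1 : dg m ≤ n := (le_totalDegree hm).trans hp
  have h2 : monomial m (coeff m p) = coeff m p • mo K m := by
    rw [mo, smul_monomial, smul_eq_mul, mul_one]
  rw [h2, map_smul, map_smul, h m h1]

lemma deg_ext (φ : MvPolynomial I K →ₗ[K] MvPolynomial I K) (n N : ℕ)
    (h : ∀ m : I →₀ ℕ, dg m ≤ n → (φ (mo K m)).totalDegree ≤ N) (p : MvPolynomial I K)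
    (hp : p.totalDegree ≤ n) : (φ p).totalDegree ≤ N := by
  rw [p.as_sum, map_sum]
  apply totalDegree_finsetSum_le
  intro m hm
  have h1 : dg m ≤ n := (le_totalDegree hm).trans hp
  have h2 : monomial m (coeff m p) = coeff m p • mo K m := by
    rw [mo, smul_monomial, smul_eq_mul, mul_one]
  rw [h2, map_smul]
  exact (totalDegree_smul_le _ _).trans (h m h1)

variable (b : Module.Basis I K L)

/-- the stages of the action -/
noncomputable def R : ℕ → (L →ₗ[K] Module.End K (MvPolynomial I K))
  | 0 => b.constr K (fun i => LinearMap.mulLeft K (X i))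
  | n + 1 => b.constr K (fun i => (basisMonomials I K).constr K (fun m =>
      if mn i m = i then X i * mo K m else
        X i * mo K m +
          R n (b (mn i m)) (R n (b i) (mo K (m - Finsupp.single (mn i m) 1)) -
            X i * mo K (m - Finsupp.single (mn i m) 1)) +
          R n ⁅b i, b (mn i m)⁆ (mo K (m - Finsupp.single (mn i m) 1))))

lemma R_zero (i : I) (p : MvPolynomial I K) : R b 0 (b i) p = X i * p := by
  simp [R]

lemma R_succ (n : ℕ) (i : I) (m : I →₀ ℕ) : R b (n + 1) (b i) (mo K m) =
    if mn i m = i then X i * mo K m else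
        X i * mo K m +
          R b n (b (mn i m)) (R b n (b i) (mo K (m - Finsupp.single (mn i m) 1)) -
            X i * mo K (m - Finsupp.single (mn i m) 1)) +
          R b n ⁅b i, b (mn i m)⁆ (mo K (m - Finsupp.single (mn i m) 1)) := by
  have h : mo K m = basisMonomials I K m := by rw [coe_basisMonomials]
  conv_lhs => rw [h]
  rw [R, Module.Basis.constr_basis, Module.Basis.constr_basis]

lemma R_le (n : ℕ) {i : I} {m : I →₀ ℕ} (h : ∀ k ∈ m.support, i ≤ k) :
    R b n (b i) (mo K m) = X i * mo K m := by
  cases n with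
  | zero => exact R_zero b i _
  | succ n => rw [R_succ, if_pos (mn_of_le h)]

lemma R_lt (n : ℕ) {i j : I} {m : I →₀ ℕ} (h : ∀ k ∈ m.support, j ≤ k) (hji : j < i) :
    R b (n + 1) (b i) (mo K (m + Finsupp.single j 1)) =
      X i * mo K (m + Finsupp.single j 1) +
        R b n (b j) (R b n (b i) (mo K m) - X i * mo K m) + R b n ⁅b i, b j⁆ (mo K m) := by
  rw [R_succ, mn_of_lt h hji, if_neg hji.ne, add_tsub_cancel_right]

lemma ind (C : L → Prop) (hb : ∀ i, C (b i)) (h0 : C 0) (ha : ∀ x y, C x → C y → C (x + y))
    (hs : ∀ (c : K) x, C x → C (c • x)) (x : L) : C x := by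
  have hx : x ∈ Submodule.span K (Set.range b) := by rw [b.span_eq]; trivial
  induction hx using Submodule.span_induction with
  | mem x h => obtain ⟨i, rfl⟩ := h; exact hb i
  | zero => exact h0
  | add x y _ _ hx hy => exact ha x y hx hy
  | smul c x _ hx => exact hs c x hx

lemma degB_of (n : ℕ) (h : ∀ i p, (R b n (b i) p - X i * p).totalDegree ≤ p.totalDegree) (x : L)
    (p : MvPolynomial I K) : (R b n x p).totalDegree ≤ p.totalDegree + 1 := by
  refine ind b (fun x => (R b n x p).totalDegree ≤ p.totalDegree + 1) ?_ ?_ ?_ ?_ x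
  · intro i
    have h1 := h i p
    have h2 : R b n (b i) p = (R b n (b i) p - X i * p) + X i * p := by ring
    rw [h2]
    refine (totalDegree_add _ _).trans (max_le (h1.trans (Nat.le_succ _)) ?_)
    refine (totalDegree_mul _ _).trans ?_
    rw [totalDegree_X]; omega
  · simp
  · intro x y hx hy
    rw [map_add, LinearMap.add_apply]
    exact (totalDegree_add _ _).trans (max_le hx hy)
  · intro c x hx
    rw [map_smul, LinearMap.smul_apply]
    exact (totalDegree_smul_le _ _).trans hx

lemma degA (n : ℕ) : ∀ i p, (R b n (b i) p - X i * p).totalDegree ≤ p.totalDegree := by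
  induction n with
  | zero => intro i p; rw [R_zero]; simp
  | succ n ih =>
    intro i p
    refine deg_ext (R b (n + 1) (b i) - LinearMap.mulLeft K (X i)) p.totalDegree p.totalDegree ?_ p le_rfl
    intro m hm
    refine le_trans ?_ hm
    rw [LinearMap.sub_apply, LinearMap.mulLeft_apply]
    rcases dec i m with h | ⟨j, m', rfl, hj, h⟩
    · rw [R_le b _ h, sub_self]; simp
    · rw [R_lt b n h hj, dg_add]
      have e : X i * mo K (m' + Finsupp.single j 1) +
          R b n (b j) (R b n (b i) (mo K m') - X i * mo K m') + R b n ⁅b i, b j⁆ (mo K m') -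
          X i * mo K (m' + Finsupp.single j 1) =
          R b n (b j) (R b n (b i) (mo K m') - X i * mo K m') + R b n ⁅b i, b j⁆ (mo K m') := by
        ring
      rw [e]
      refine (totalDegree_add _ _).trans (max_le ?_ ?_)
      · refine (degB_of b n ih _ _).trans ?_
        have := ih i (mo K m')
        rw [td_mo] at this
        omega
      · refine (degB_of b n ih _ _).trans ?_
        rw [td_mo]

lemma stage (n : ℕ) : ∀ (x : L) (p : MvPolynomial I K), p.totalDegree ≤ n →
    R b (n + 1) x p = R b n x p := by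
  have red : ∀ n : ℕ, (∀ (i : I) (m : I →₀ ℕ), dg m ≤ n →
      R b (n + 1) (b i) (mo K m) = R b n (b i) (mo K m)) →
      ∀ (x : L) (p : MvPolynomial I K), p.totalDegree ≤ n → R b (n + 1) x p = R b n x p := by
    intro n h x p hp
    refine ind b (fun x => R b (n + 1) x p = R b n x p) ?_ ?_ ?_ ?_ x
    · intro i
      exact lin_ext _ _ n (fun m hm => h i m hm) p hp
    · simp
    · intro x y hx hy
      rw [map_add, map_add, LinearMap.add_apply, LinearMap.add_apply, hx, hy]
    · intro c x hx
      rw [map_smul, map_smul, LinearMap.smul_apply, LinearMap.smul_apply, hx]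
  induction n with
  | zero =>
    apply red
    intro i m hm
    rcases dec i m with h | ⟨j, m', rfl, hj, h⟩
    · rw [R_le b _ h, R_le b _ h]
    · rw [dg_add] at hm; omega
  | succ n ih =>
    apply red
    intro i m hm
    rcases dec i m with h | ⟨j, m', rfl, hj, h⟩
    · rw [R_le b _ h, R_le b _ h]
    · rw [dg_add] at hm
      have hm' : (mo K m').totalDegree ≤ n := by rw [td_mo]; omega
      rw [R_lt b _ h hj, R_lt b _ h hj, ih (b i) _ hm', ih ⁅b i, b j⁆ _ hm',
        ih (b j) _ ((degA b n i _).trans hm')]

lemma stage' {n k : ℕ} (hnk : n ≤ k) (x : L) (p : MvPolynomial I K) (hp : p.totalDegree ≤ n) :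
    R b k x p = R b n x p := by
  induction k, hnk using Nat.le_induction with
  | base => rfl
  | succ k hk ih => rw [stage b k x p (hp.trans hk), ih]

/-- the action -/
noncomputable def rho : L →ₗ[K] Module.End K (MvPolynomial I K) :=
  b.constr K (fun i => (basisMonomials I K).constr K (fun m => R b (dg m) (b i) (mo K m)))

lemma rho_eq (n : ℕ) (x : L) (p : MvPolynomial I K) (hp : p.totalDegree ≤ n) :
    rho b x p = R b n x p := by
  refine ind b (fun x => rho b x p = R b n x p) ?_ ?_ ?_ ?_ x
  · intro i
    refine lin_ext _ _ n (fun m hm => ?_) p hp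
    have h : mo K m = basisMonomials I K m := by rw [coe_basisMonomials]
    conv_lhs => rw [h]
    rw [rho, Module.Basis.constr_basis, Module.Basis.constr_basis]
    exact (stage' b hm _ _ (td_mo m).le).symm
  · simp
  · intro x y hx hy
    rw [map_add, map_add, LinearMap.add_apply, LinearMap.add_apply, hx, hy]
  · intro c x hx
    rw [map_smul, map_smul, LinearMap.smul_apply, LinearMap.smul_apply, hx]

lemma rho_deg (i : I) (p : MvPolynomial I K) :
    (rho b (b i) p - X i * p).totalDegree ≤ p.totalDegree := by
  rw [rho_eq b p.totalDegree _ p le_rfl]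
  exact degA b _ i p

lemma rho_le {i : I} {m : I →₀ ℕ} (h : ∀ k ∈ m.support, i ≤ k) :
    rho b (b i) (mo K m) = X i * mo K m := by
  rw [rho_eq b _ _ _ le_rfl, R_le b _ h]

lemma rho_lt {i j : I} {m : I →₀ ℕ} (h : ∀ k ∈ m.support, j ≤ k) (hji : j < i) :
    rho b (b i) (mo K (m + Finsupp.single j 1)) =
      X i * mo K (m + Finsupp.single j 1) +
        rho b (b j) (rho b (b i) (mo K m) - X i * mo K m) + rho b ⁅b i, b j⁆ (mo K m) := by
  have h1 : (mo K m).totalDegree ≤ dg m := (td_mo m).le
  rw [rho_eq b (dg m + 1) _ _ (by rw [td_mo, dg_add]), R_lt b _ h hji,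
    rho_eq b (dg m) (b i) _ h1, rho_eq b (dg m) ⁅b i, b j⁆ _ h1,
    rho_eq b (dg m) (b j) _ ((degA b _ i _).trans h1)]

/-- commutation on a monomial, first case -/
lemma com1 {i j : I} {m : I →₀ ℕ} (h : ∀ k ∈ m.support, j ≤ k) (hji : j < i) :
    rho b (b i) (rho b (b j) (mo K m)) - rho b (b j) (rho b (b i) (mo K m)) =
      rho b ⁅b i, b j⁆ (mo K m) := by
  rw [rho_le b h, X_mul_mo, rho_lt b h hji, map_sub, X_mul_mo i m]
  have h2 : rho b (b j) (mo K (m + Finsupp.single i 1)) = X j * mo K (m + Finsupp.single i 1) := by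
    apply rho_le
    intro k hk
    rw [supp_add] at hk
    rcases hk with rfl | hk
    · exact hji.le
    · exact h k hk
  rw [h2, ← X_mul_mo i m, ← X_mul_mo j m]
  ring

lemma com (n : ℕ) : ∀ (x y : L) (p : MvPolynomial I K), p.totalDegree < n →
    rho b x (rho b y p) - rho b y (rho b x p) = rho b ⁅x, y⁆ p := by
  induction n with
  | zero => intro x y p hp; omega
  | succ n ih =>
    -- second case
    have com2 : ∀ (i j k : I) (P : I →₀ ℕ), k < i → k < j → (∀ l ∈ P.support, k ≤ l) → dg P < n →
        rho b (b i) (rho b (b j) (mo K (P + Finsupp.single k 1))) =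
        rho b (b k) (rho b (b i) (rho b (b j) (mo K P))) + rho b ⁅b i, b k⁆ (rho b (b j) (mo K P)) +
        rho b ⁅b j, b k⁆ (rho b (b i) (mo K P)) + rho b ⁅b i, ⁅b j, b k⁆⁆ (mo K P) := by
      intro i j k P hki hkj hP hd
      have hP' : (mo K P).totalDegree < n := by rw [td_mo]; exact hd
      have e1 : mo K (P + Finsupp.single k 1) = rho b (b k) (mo K P) := by
        rw [rho_le b hP, X_mul_mo]
      have e2 := ih (b j) (b k) (mo K P) hP'
      have e3 := ih (b i) ⁅b j, b k⁆ (mo K P) hP'
      -- the case (i, k) on X_j P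
      have e4 : rho b (b i) (rho b (b k) (X j * mo K P)) - rho b (b k) (rho b (b i) (X j * mo K P)) =
          rho b ⁅b i, b k⁆ (X j * mo K P) := by
        rw [X_mul_mo]
        apply com1 b _ hki
        intro l hl
        rw [supp_add] at hl
        rcases hl with rfl | hl
        · exact hkj.le
        · exact hP l hl
      have e5 := ih (b i) (b k) (rho b (b j) (mo K P) - X j * mo K P)
        ((rho_deg b j _).trans_lt hP')
      have e6 : rho b (b i) (rho b (b k) (rho b (b j) (mo K P))) -
          rho b (b k) (rho b (b i) (rho b (b j) (mo K P))) =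
          rho b ⁅b i, b k⁆ (rho b (b j) (mo K P)) := by
        have e7 := congrArg₂ (· + ·) e4 e5
        simp only [map_sub] at e7
        linear_combination e7
      rw [e1]
      have e8 : rho b (b j) (rho b (b k) (mo K P)) =
          rho b (b k) (rho b (b j) (mo K P)) + rho b ⁅b j, b k⁆ (mo K P) := by
        linear_combination e2
      rw [e8, map_add]
      linear_combination e6 + e3
    -- basis elements and monomials
    have com3 : ∀ (i j : I) (m : I →₀ ℕ), dg m < n + 1 →
        rho b (b i) (rho b (b j) (mo K m)) - rho b (b j) (rho b (b i) (mo K m)) =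
          rho b ⁅b i, b j⁆ (mo K m) := by
      intro i j m hm
      have two : ∀ (k : I) (P : I →₀ ℕ), m = P + Finsupp.single k 1 → k < i → k < j →
          (∀ l ∈ P.support, k ≤ l) →
          rho b (b i) (rho b (b j) (mo K m)) - rho b (b j) (rho b (b i) (mo K m)) =
          rho b ⁅b i, b j⁆ (mo K m) := by
        rintro k P rfl hki hkj hP
        rw [dg_add] at hm
        have hd : dg P < n := by omega
        have hP' : (mo K P).totalDegree < n := by rw [td_mo]; exact hd
        rw [com2 i j k P hki hkj hP hd, com2 j i k P hkj hki hP hd]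
        have e1 : mo K (P + Finsupp.single k 1) = rho b (b k) (mo K P) := by
          rw [rho_le b hP, X_mul_mo]
        have e2 := congrArg (rho b (b k)) (ih (b i) (b j) (mo K P) hP')
        have e3 := ih (b k) ⁅b i, b j⁆ (mo K P) hP'
        rw [e1]
        have e4 : rho b ⁅b k, ⁅b i, b j⁆⁆ (mo K P) + rho b ⁅b i, ⁅b j, b k⁆⁆ (mo K P) -
            rho b ⁅b j, ⁅b i, b k⁆⁆ (mo K P) = 0 := by
          rw [← LinearMap.add_apply, ← LinearMap.sub_apply, ← map_add, ← map_sub]
          have : ⁅b k, ⁅b i, b j⁆⁆ + ⁅b i, ⁅b j, b k⁆⁆ - ⁅b j, ⁅b i, b k⁆⁆ = 0 := by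
            have hj := lie_jacobi (b i) (b j) (b k)
            rw [← lie_skew (b i) (b k), lie_neg, sub_neg_eq_add, ← hj]
            abel
          rw [this]; simp
        rw [map_sub] at e2
        linear_combination e2 + e3 + e4
      rcases lt_trichotomy i j with hij | rfl | hij
      · rcases dec i m with h | ⟨k, P, hm', hk, hP⟩
        · have := com1 b h hij
          rw [← lie_skew, map_neg, LinearMap.neg_apply, ← this]
          ring
        · exact two k P hm' hk (hk.trans hij) hP
      · simp
      · rcases dec j m with h | ⟨k, P, hm', hk, hP⟩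
        · exact com1 b h hij
        · exact two k P hm' (hk.trans hij) hk hP
    intro x y p hp
    refine lin_ext (rho b x ∘ₗ rho b y - rho b y ∘ₗ rho b x) (rho b ⁅x, y⁆) n ?_ p (by omega)
    intro m hm
    rw [LinearMap.sub_apply, LinearMap.comp_apply, LinearMap.comp_apply]
    refine ind b (fun x => rho b x (rho b y (mo K m)) - rho b y (rho b x (mo K m)) =
      rho b ⁅x, y⁆ (mo K m)) ?_ ?_ ?_ ?_ x
    · intro i
      refine ind b (fun y => rho b (b i) (rho b y (mo K m)) - rho b y (rho b (b i) (mo K m)) =
        rho b ⁅b i, y⁆ (mo K m)) ?_ ?_ ?_ ?_ y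
      · intro j
        exact com3 i j m (by omega)
      · simp
      · intro y z hy hz
        simp only [map_add, lie_add, LinearMap.add_apply]
        rw [← hy, ← hz]; ring
      · intro c y hy
        simp only [map_smul, lie_smul, LinearMap.smul_apply]
        rw [← hy, smul_sub]
    · simp
    · intro y z hy hz
      simp only [map_add, add_lie, LinearMap.add_apply]
      rw [← hy, ← hz]; ring
    · intro c y hy
      simp only [map_smul, smul_lie, LinearMap.smul_apply]
      rw [← hy, smul_sub]


end Pool.Agent.Q12.PH.PBW
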