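import Pool.Agent.Q12.PH.Anti

/-!
# The pushout of a morphism of Poisson Hopf algebras along itself
-/

set_option autoImplicit false

open TensorProduct Coalgebra HopfAlgebra

universe u

namespace Pool.Agent.Q12.PH

/-- terms in two copies of `A` -/
inductive Pre (A : Type u) : Type u
  | of1 (a : A) : Pre A
  | of2 (a : A) : Pre A
  | add (x y : Pre A) : Pre A
  | mul (x y : Pre A) : Pre A
  | br (x y : Pre A) : Pre A

section

variable {k H A : Type u} [Field k] [CommRing H] [Algebra k H] [CommRing A] [Algebra k A]

/-- two homomorphisms of Poisson algebras which agree on the image of `f` -/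
structure Tst (P : Poisson k A) (f : H →ₐ[k] A) where
  D : Type u
  [ring : CommRing D]
  [alg : Algebra k D]
  Q : Poisson k D
  g : A →ₐ[k] D
  h : A →ₐ[k] D
  hg : IsHom P Q g
  hh : IsHom P Q h
  eq : ∀ x, g (f x) = h (f x)

attribute [local instance] Tst.ring Tst.alg

variable {P : Poisson k A} {f : H →ₐ[k] A}

/-- evaluation of terms -/
def ev (T : Tst P f) : Pre A → T.D
  | .of1 a => T.g a
  | .of2 a => T.h a
  | .add x y => ev T x + ev T y
  | .mul x y => ev T x * ev T y
  | .br x y => T.Q.br (ev T x) (ev T y)

variable (P f) in
/-- two terms with the same values everywhere -/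
def sim : Setoid (Pre A) where
  r x y := ∀ T : Tst P f, ev T x = ev T y
  iseqv := ⟨fun _ _ => rfl, fun h T => (h T).symm, fun h h' T => (h T).trans (h' T)⟩

variable (P f) in
/-- the pushout of `f` along itself -/
def PO : Type u := Quotient (sim P f)

namespace PO

/-- the class of a term -/
def mk (x : Pre A) : PO P f := Quotient.mk (sim P f) x

theorem mk_eq {x y : Pre A} (h : ∀ T : Tst P f, ev T x = ev T y) : (mk x : PO P f) = mk y :=
  Quotient.sound h

theorem ind {p : PO P f → Prop} (h : ∀ x, p (mk x)) (z : PO P f) : p z := Quotient.ind h z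

/-- binary operations -/
def op2 (o : Pre A → Pre A → Pre A)
    (ho : ∀ x x' y y', (∀ T : Tst P f, ev T x = ev T x') → (∀ T : Tst P f, ev T y = ev T y') →
      ∀ T : Tst P f, ev T (o x y) = ev T (o x' y')) : PO P f → PO P f → PO P f :=
  Quotient.map₂ o (fun _ _ h _ _ h' => ho _ _ _ _ h h')

instance : Add (PO P f) := ⟨op2 Pre.add (fun x x' y y' h h' T => by simp [ev, h T, h' T])⟩

instance : Mul (PO P f) := ⟨op2 Pre.mul (fun x x' y y' h h' T => by simp [ev, h T, h' T])⟩

/-- the bracket -/
def brk : PO P f → PO P f → PO P f :=
  op2 Pre.br (fun x x' y y' h h' T => by simp [ev, h T, h' T])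

instance : Zero (PO P f) := ⟨mk (.of1 0)⟩

instance : One (PO P f) := ⟨mk (.of1 1)⟩

instance : Neg (PO P f) := ⟨fun x => mk (.of1 (-1)) * x⟩

theorem add_mk (x y : Pre A) : (mk x + mk y : PO P f) = mk (.add x y) := rfl

theorem mul_mk (x y : Pre A) : (mk x * mk y : PO P f) = mk (.mul x y) := rfl

theorem brk_mk (x y : Pre A) : brk (mk x : PO P f) (mk y) = mk (.br x y) := rfl

theorem zero_mk : (0 : PO P f) = mk (.of1 0) := rfl

theorem one_mk : (1 : PO P f) = mk (.of1 1) := rfl

theorem neg_mk (x : Pre A) : (- mk x : PO P f) = mk (.mul (.of1 (-1)) x) := rfl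

instance : CommRing (PO P f) := CommRing.ofMinimalAxioms
  (by
    intro a b c
    induction a using ind; induction b using ind; induction c using ind
    simp only [add_mk]
    exact mk_eq fun T => by simp [ev, add_assoc])
  (by
    intro a
    induction a using ind
    simp only [zero_mk, add_mk]
    exact mk_eq fun T => by simp [ev])
  (by
    intro a
    induction a using ind
    simp only [zero_mk, neg_mk, add_mk]
    exact mk_eq fun T => by simp [ev])
  (by
    intro a b c
    induction a using ind; induction b using ind; induction c using ind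
    simp only [mul_mk]
    exact mk_eq fun T => by simp [ev, mul_assoc])
  (by
    intro a b
    induction a using ind; induction b using ind
    simp only [mul_mk]
    exact mk_eq fun T => by simp [ev, mul_comm])
  (by
    intro a
    induction a using ind
    simp only [one_mk, mul_mk]
    exact mk_eq fun T => by simp [ev])
  (by
    intro a b c
    induction a using ind; induction b using ind; induction c using ind
    simp only [mul_mk, add_mk]
    exact mk_eq fun T => by simp [ev, mul_add])

/-- the first copy of `A`, as a ring homomorphism -/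
def i1 : A →+* PO P f where
  toFun a := mk (.of1 a)
  map_one' := rfl
  map_zero' := rfl
  map_mul' a b := by rw [mul_mk]; exact mk_eq fun T => by simp [ev]
  map_add' a b := by rw [add_mk]; exact mk_eq fun T => by simp [ev]

instance : Algebra k (PO P f) := RingHom.toAlgebra (i1.comp (algebraMap k A))

theorem algebraMap_mk (r : k) : algebraMap k (PO P f) r = mk (.of1 (algebraMap k A r)) := rfl

theorem smul_mk (r : k) (x : Pre A) :
    (r • mk x : PO P f) = mk (.mul (.of1 (algebraMap k A r)) x) := by
  rw [Algebra.smul_def, algebraMap_mk, mul_mk]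

/-- the bracket of the pushout -/
def bil : PO P f →ₗ[k] PO P f →ₗ[k] PO P f := LinearMap.mk₂ k brk
  (by
    intro a b c
    induction a using ind; induction b using ind; induction c using ind
    simp only [add_mk, brk_mk]
    exact mk_eq fun T => by simp [ev])
  (by
    intro r a b
    induction a using ind; induction b using ind
    simp only [smul_mk, brk_mk]
    exact mk_eq fun T => by
      simp only [ev, AlgHom.commutes]
      rw [T.Q.leib', T.Q.alg_left]
      ring)
  (by
    intro a b c
    induction a using ind; induction b using ind; induction c using ind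
    simp only [add_mk, brk_mk]
    exact mk_eq fun T => by simp [ev])
  (by
    intro r a b
    induction a using ind; induction b using ind
    simp only [smul_mk, brk_mk]
    exact mk_eq fun T => by
      simp only [ev, AlgHom.commutes]
      rw [T.Q.leib, T.Q.alg_right]
      ring)

theorem bil_mk (x y : Pre A) : bil (mk x : PO P f) (mk y) = mk (.br x y) := rfl

/-- the Poisson bracket of the pushout -/
def poi : Poisson k (PO P f) where
  br := bil
  self a := by
    induction a using ind
    rw [bil_mk, zero_mk]
    exact mk_eq fun T => by simp [ev, T.Q.self]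
  jac a b c := by
    induction a using ind; induction b using ind; induction c using ind
    simp only [bil_mk, add_mk]
    exact mk_eq fun T => by simp only [ev]; exact T.Q.jac _ _ _
  leib a b c := by
    induction a using ind; induction b using ind; induction c using ind
    simp only [bil_mk, add_mk, mul_mk]
    exact mk_eq fun T => by simp only [ev]; exact T.Q.leib _ _ _

/-- the first copy of `A` -/
def j1 : A →ₐ[k] PO P f where
  __ := i1
  commutes' _ := rfl

/-- the second copy of `A` -/
def j2 : A →ₐ[k] PO P f where
  toFun a := mk (.of2 a)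
  map_one' := by rw [one_mk]; exact mk_eq fun T => by simp [ev]
  map_zero' := by rw [zero_mk]; exact mk_eq fun T => by simp [ev]
  map_mul' a b := by rw [mul_mk]; exact mk_eq fun T => by simp [ev]
  map_add' a b := by rw [add_mk]; exact mk_eq fun T => by simp [ev]
  commutes' r := by
    rw [algebraMap_mk]
    exact mk_eq fun T => by simp [ev]

theorem j1_mk (a : A) : (j1 a : PO P f) = mk (.of1 a) := rfl

theorem j2_mk (a : A) : (j2 a : PO P f) = mk (.of2 a) := rfl

theorem hom_j1 : IsHom P (poi : Poisson k (PO P f)) j1 := fun a b => by
  rw [j1_mk, j1_mk, j1_mk]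
  show _ = bil _ _
  rw [bil_mk]
  exact mk_eq fun T => by simp only [ev]; exact T.hg _ _

theorem hom_j2 : IsHom P (poi : Poisson k (PO P f)) j2 := fun a b => by
  rw [j2_mk, j2_mk, j2_mk]
  show _ = bil _ _
  rw [bil_mk]
  exact mk_eq fun T => by simp only [ev]; exact T.hh _ _

theorem j_eq (x : H) : (j1 (f x) : PO P f) = j2 (f x) := by
  rw [j1_mk, j2_mk]
  exact mk_eq fun T => by simp only [ev]; exact T.eq x

/-- the homomorphism out of the pushout -/
def lift (T : Tst P f) : PO P f →ₐ[k] T.D where
  toFun := Quotient.lift (ev T) fun _ _ h => h T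
  map_one' := by show ev T _ = _; simp [ev]
  map_zero' := by show ev T _ = _; simp [ev]
  map_mul' a b := by
    induction a using ind; induction b using ind
    rfl
  map_add' a b := by
    induction a using ind; induction b using ind
    rfl
  commutes' r := by
    rw [algebraMap_mk]
    show ev T _ = _
    simp [ev]

theorem lift_mk (T : Tst P f) (x : Pre A) : lift T (mk x) = ev T x := rfl

theorem lift_hom (T : Tst P f) : IsHom poi T.Q (lift T) := by
  intro a b
  induction a using ind; induction b using ind
  rfl

theorem lift_j1 (T : Tst P f) (a : A) : lift T (j1 a) = T.g a := rfl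

theorem lift_j2 (T : Tst P f) (a : A) : lift T (j2 a) = T.h a := rfl

/-- a property of the elements of the pushout can be checked on generators -/
theorem gen {p : PO P f → Prop} (h1 : ∀ a, p (j1 a)) (h2 : ∀ a, p (j2 a))
    (ha : ∀ x y, p x → p y → p (x + y)) (hm : ∀ x y, p x → p y → p (x * y))
    (hb : ∀ x y, p x → p y → p (poi.br x y)) (z : PO P f) : p z := by
  induction z using ind with
  | h x =>
    induction x with
    | of1 a => exact h1 a
    | of2 a => exact h2 a
    | add x y hx hy => exact ha _ _ hx hy
    | mul x y hx hy => exact hm _ _ hx hy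
    | br x y hx hy => exact hb _ _ hx hy

/-- two homomorphisms which agree on the generators are equal -/
theorem hom_ext {D : Type*} [CommRing D] [Algebra k D] {Q : Poisson k D}
    {φ ψ : PO P f →ₐ[k] D} (hφ : IsHom poi Q φ) (hψ : IsHom poi Q ψ)
    (h1 : ∀ a, φ (j1 a) = ψ (j1 a)) (h2 : ∀ a, φ (j2 a) = ψ (j2 a)) : φ = ψ := by
  apply AlgHom.ext
  intro z
  induction z using gen with
  | h1 a => exact h1 a
  | h2 a => exact h2 a
  | ha x y hx hy => rw [map_add, map_add, hx, hy]
  | hm x y hx hy => rw [map_mul, map_mul, hx, hy]
  | hb x y hx hy => rw [hφ, hψ, hx, hy]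

end PO

end

end Pool.Agent.Q12.PH
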