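import Pool.Agent.Q12.PH.Push

/-!
# The pushout is a Poisson Hopf algebra
-/

set_option autoImplicit false

open TensorProduct Coalgebra HopfAlgebra WithConv

universe u

namespace Pool.Agent.Q12.PH

section anti

variable {k H A : Type*} [Field k] [CommRing H] [HopfAlgebra k H] [CommRing A] [HopfAlgebra k A]

/-- bialgebra homomorphisms commute with the antipodes -/
theorem map_antipode (f : H →ₐc[k] A) (x : H) : f (antipode k x) = antipode k (f x) := by
  have h1 : toConv (antipode k ∘ₗ (f : H →ₗ[k] A)) * toConv (f : H →ₗ[k] A) = 1 := by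
    ext x
    rw [(ℛ k x).convMul_apply]
    have h := sum_antipode_mul_eq_algebraMap_counit ((ℛ k x).induced (R := k) f)
    simp only [Coalgebra.Repr.induced] at h
    refine h.trans ?_
    simp
  have h2 : toConv (f : H →ₗ[k] A) * toConv ((f : H →ₗ[k] A) ∘ₗ antipode k) = 1 := by
    ext x
    rw [(ℛ k x).convMul_apply]
    have h := congrArg f (sum_mul_antipode_eq_algebraMap_counit (ℛ k x))
    rw [map_sum] at h
    simp only [map_mul] at h
    refine h.trans ?_
    exact AlgHomClass.commutes f _
  have h3 := left_inv_eq_right_inv h1 h2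
  have h4 := congrArg (fun z : WithConv (H →ₗ[k] A) => z x) h3
  exact h4.symm

end anti

section

variable {k H A : Type u} [Field k] [CommRing H] [HopfAlgebra k H] [CommRing A] [HopfAlgebra k A]
  {P : Poisson k A} (hP : IsPB P) (f : H →ₐc[k] A)

/-- the underlying homomorphism of algebras -/
abbrev ah (f : H →ₐc[k] A) : H →ₐ[k] A := f

theorem comul_f (x : H) : comul (R := k) (f x) =
    Algebra.TensorProduct.map (ah f) (ah f) (comul x) := by
  have h := DFunLike.congr_fun (BialgHomClass.map_comp_comulAlgHom f) x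
  exact h.symm

/-- the test object for the comultiplication -/
noncomputable def tco : Tst P (ah f) where
  D := PO P (ah f) ⊗[k] PO P (ah f)
  Q := PO.poi.tensor PO.poi
  g := (Algebra.TensorProduct.map PO.j1 PO.j1).comp (Bialgebra.comulAlgHom k A)
  h := (Algebra.TensorProduct.map PO.j2 PO.j2).comp (Bialgebra.comulAlgHom k A)
  hg := (isHom_map PO.hom_j1 PO.hom_j1).comp (Q := P.tensor P) hP.co
  hh := (isHom_map PO.hom_j2 PO.hom_j2).comp (Q := P.tensor P) hP.co
  eq x := by
    show Algebra.TensorProduct.map PO.j1 PO.j1 (comul (f x)) =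
      Algebra.TensorProduct.map PO.j2 PO.j2 (comul (f x))
    rw [comul_f]
    generalize comul (R := k) x = y
    induction y using TensorProduct.induction_on with
    | zero => simp
    | add y y' h h' => simp only [map_add, h, h']
    | tmul a b =>
      rw [Algebra.TensorProduct.map_tmul, Algebra.TensorProduct.map_tmul,
        Algebra.TensorProduct.map_tmul]
      have h1 := PO.j_eq (P := P) (f := ah f) a
      have h2 := PO.j_eq (P := P) (f := ah f) b
      rw [h1, h2]

/-- the comultiplication of the pushout -/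
noncomputable def pco : PO P (ah f) →ₐ[k] PO P (ah f) ⊗[k] PO P (ah f) := PO.lift (tco hP f)

theorem pco_hom : IsHom PO.poi (PO.poi.tensor PO.poi) (pco hP f) := PO.lift_hom (tco hP f)

theorem pco_j1 (a : A) : pco hP f (PO.j1 a) = Algebra.TensorProduct.map PO.j1 PO.j1 (comul a) :=
  rfl

theorem pco_j2 (a : A) : pco hP f (PO.j2 a) = Algebra.TensorProduct.map PO.j2 PO.j2 (comul a) :=
  rfl

/-- the test object for the counit -/
noncomputable def tcu : Tst P (ah f) where
  D := k
  Q := zero k k
  g := Bialgebra.counitAlgHom k A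
  h := Bialgebra.counitAlgHom k A
  hg a b := hP.cu a b
  hh a b := hP.cu a b
  eq _ := rfl

/-- the counit of the pushout -/
noncomputable def pcu : PO P (ah f) →ₐ[k] k := PO.lift (tcu hP f)

theorem pcu_hom : IsHom PO.poi (zero k k) (pcu hP f) := PO.lift_hom (tcu hP f)

theorem pcu_j1 (a : A) : pcu hP f (PO.j1 a) = counit a := rfl

theorem pcu_j2 (a : A) : pcu hP f (PO.j2 a) = counit a := rfl

section aux

variable {C : Type*} [CommRing C] [Algebra k C] (j : A →ₐ[k] C) (Δ : C →ₐ[k] C ⊗[k] C)
  (hj : ∀ a, Δ (j a) = Algebra.TensorProduct.map j j (comul a))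

include hj in
theorem aux1 (x : A ⊗[k] A) : (Algebra.TensorProduct.assoc k k k C C C).toAlgHom
    (Algebra.TensorProduct.map Δ (AlgHom.id k C) (Algebra.TensorProduct.map j j x)) =
    Algebra.TensorProduct.map j (Algebra.TensorProduct.map j j)
      (TensorProduct.assoc k A A A (comul.rTensor A x)) := by
  induction x using TensorProduct.induction_on with
  | zero => simp
  | add y y' h h' => simp only [map_add, h, h']
  | tmul a b =>
    rw [Algebra.TensorProduct.map_tmul, Algebra.TensorProduct.map_tmul, hj,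
      LinearMap.rTensor_tmul]
    generalize comul (R := k) a = y
    induction y using TensorProduct.induction_on with
    | zero => simp
    | add y y' h h' => simp only [map_add, TensorProduct.add_tmul, h, h']
    | tmul c d => rfl

include hj in
theorem aux2 (x : A ⊗[k] A) :
    Algebra.TensorProduct.map (AlgHom.id k C) Δ (Algebra.TensorProduct.map j j x) =
    Algebra.TensorProduct.map j (Algebra.TensorProduct.map j j) (comul.lTensor A x) := by
  induction x using TensorProduct.induction_on with
  | zero => simp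
  | add y y' h h' => simp only [map_add, h, h']
  | tmul a b =>
    rw [Algebra.TensorProduct.map_tmul, Algebra.TensorProduct.map_tmul, hj,
      LinearMap.lTensor_tmul, Algebra.TensorProduct.map_tmul]
    rfl

include hj in
theorem aux3 (a : A) : (Algebra.TensorProduct.assoc k k k C C C).toAlgHom
    (Algebra.TensorProduct.map Δ (AlgHom.id k C) (Δ (j a))) =
    Algebra.TensorProduct.map (AlgHom.id k C) Δ (Δ (j a)) := by
  rw [hj, aux1 j Δ hj, aux2 j Δ hj, Coalgebra.coassoc_apply]

variable (ε : C →ₐ[k] k) (hε : ∀ a, ε (j a) = counit a)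

include hj hε in
theorem aux4 (a : A) : Algebra.TensorProduct.map ε (AlgHom.id k C) (Δ (j a)) = 1 ⊗ₜ j a := by
  rw [hj]
  have h : ∀ x : A ⊗[k] A, Algebra.TensorProduct.map ε (AlgHom.id k C)
      (Algebra.TensorProduct.map j j x) = j.toLinearMap.lTensor k (counit.rTensor A x) := by
    intro x
    induction x using TensorProduct.induction_on with
    | zero => simp
    | add y y' h h' => simp only [map_add, h, h']
    | tmul a b =>
      rw [Algebra.TensorProduct.map_tmul, Algebra.TensorProduct.map_tmul, hε]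
      rfl
  rw [h, Coalgebra.rTensor_counit_comul]
  rfl

include hj hε in
theorem aux5 (a : A) : Algebra.TensorProduct.map (AlgHom.id k C) ε (Δ (j a)) = j a ⊗ₜ 1 := by
  rw [hj]
  have h : ∀ x : A ⊗[k] A, Algebra.TensorProduct.map (AlgHom.id k C) ε
      (Algebra.TensorProduct.map j j x) = j.toLinearMap.rTensor k (counit.lTensor A x) := by
    intro x
    induction x using TensorProduct.induction_on with
    | zero => simp
    | add y y' h h' => simp only [map_add, h, h']
    | tmul a b =>
      rw [Algebra.TensorProduct.map_tmul, Algebra.TensorProduct.map_tmul, hε]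
      rfl
  rw [h, Coalgebra.lTensor_counit_comul]
  rfl

end aux

/-- the bialgebra structure of the pushout -/
noncomputable abbrev pbi : Bialgebra k (PO P (ah f)) := Bialgebra.ofAlgHom (pco hP f) (pcu hP f)
  (by
    refine PO.hom_ext (Q := PO.poi.tensor (PO.poi.tensor PO.poi)) ?_ ?_ ?_ ?_
    · exact (isHom_assoc PO.poi PO.poi PO.poi).comp
        ((isHom_map (pco_hom hP f) (IsHom.id _)).comp (pco_hom hP f))
    · exact (isHom_map (IsHom.id _) (pco_hom hP f)).comp (pco_hom hP f)
    · intro a
      exact aux3 PO.j1 (pco hP f) (pco_j1 hP f) a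
    · intro a
      exact aux3 PO.j2 (pco hP f) (pco_j2 hP f) a)
  (by
    have h1 : IsHom (PO.poi (P := P) (f := ah f)) ((zero k k).tensor PO.poi)
      ((Algebra.TensorProduct.map (pcu hP f) (AlgHom.id k (PO P (ah f)))).comp (pco hP f)) :=
      (isHom_map (pcu_hom hP f) (IsHom.id _)).comp (pco_hom hP f)
    refine PO.hom_ext (Q := (zero k k).tensor PO.poi) h1 ?_ ?_ ?_
    · intro a b
      apply (Algebra.TensorProduct.lid k (PO P (ah f))).injective
      have h2 := isHom_lid (PO.poi (P := P) (f := ah f))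
      erw [h2]
      simp
    · intro a
      exact aux4 PO.j1 (pco hP f) (pco_j1 hP f) (pcu hP f) (pcu_j1 hP f) a
    · intro a
      exact aux4 PO.j2 (pco hP f) (pco_j2 hP f) (pcu hP f) (pcu_j2 hP f) a)
  (by
    have h1 : IsHom (PO.poi (P := P) (f := ah f)) (PO.poi.tensor (zero k k))
      ((Algebra.TensorProduct.map (AlgHom.id k (PO P (ah f))) (pcu hP f)).comp (pco hP f)) :=
      (isHom_map (IsHom.id _) (pcu_hom hP f)).comp (pco_hom hP f)
    refine PO.hom_ext (Q := PO.poi.tensor (zero k k)) h1 ?_ ?_ ?_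
    · intro a b
      apply (Algebra.TensorProduct.rid k k (PO P (ah f))).injective
      have h2 := isHom_rid (PO.poi (P := P) (f := ah f))
      erw [h2]
      simp
    · intro a
      exact aux5 PO.j1 (pco hP f) (pco_j1 hP f) (pcu hP f) (pcu_j1 hP f) a
    · intro a
      exact aux5 PO.j2 (pco hP f) (pco_j2 hP f) (pcu hP f) (pcu_j2 hP f) a)

/-- the test object for the antipode -/
noncomputable def tan : Tst P (ah f) where
  D := PO P (ah f)
  Q := PO.poi.neg
  g := PO.j1.comp (antipodeAlgHom k A)
  h := PO.j2.comp (antipodeAlgHom k A)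
  hg a b := by
    show PO.j1 (antipode k (P.br a b)) = - PO.poi.br (PO.j1 (antipode k a)) (PO.j1 (antipode k b))
    rw [antipode_br hP, map_neg, PO.hom_j1]
  hh a b := by
    show PO.j2 (antipode k (P.br a b)) = - PO.poi.br (PO.j2 (antipode k a)) (PO.j2 (antipode k b))
    rw [antipode_br hP, map_neg, PO.hom_j2]
  eq x := by
    show PO.j1 (antipode k (f x)) = PO.j2 (antipode k (f x))
    rw [← map_antipode]
    exact PO.j_eq (P := P) (f := ah f) (antipode k x)

/-- the antipode of the pushout -/
noncomputable def pan : PO P (ah f) →ₐ[k] PO P (ah f) := PO.lift (tan hP f)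

theorem pan_hom (x y : PO P (ah f)) : pan hP f (PO.poi.br x y) =
    - PO.poi.br (pan hP f x) (pan hP f y) := PO.lift_hom (tan hP f) x y

theorem pan_j1 (a : A) : pan hP f (PO.j1 a) = PO.j1 (antipode k a) := rfl

theorem pan_j2 (a : A) : pan hP f (PO.j2 a) = PO.j2 (antipode k a) := rfl

section key

variable {C : Type*} [CommRing C] [Algebra k C] (Q : Poisson k C) (S : C →ₐ[k] C)
  (hS : ∀ x y, S (Q.br x y) = - Q.br (S x) (S y))

include hS in
/-- the first antipode identity is preserved by brackets -/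
theorem key1 (x y : C ⊗[k] C) (u v : k)
    (hx : Algebra.TensorProduct.lift S (AlgHom.id k C) (fun _ _ => Commute.all _ _) x =
      algebraMap k C u)
    (hy : Algebra.TensorProduct.lift S (AlgHom.id k C) (fun _ _ => Commute.all _ _) y =
      algebraMap k C v) :
    Algebra.TensorProduct.lift S (AlgHom.id k C) (fun _ _ => Commute.all _ _)
      (tb Q.br Q.br x y) = 0 := by
  obtain ⟨s, hs⟩ := TensorProduct.exists_finset x
  obtain ⟨t, ht⟩ := TensorProduct.exists_finset y
  have hx' : ∑ i ∈ s, S i.1 * i.2 = algebraMap k C u := by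
    rw [← hx, hs, map_sum]
    simp
  have hy' : ∑ i ∈ t, S i.1 * i.2 = algebraMap k C v := by
    rw [← hy, ht, map_sum]
    simp
  have e1 : ∀ z, ∑ i ∈ s, (S i.1 * Q.br i.2 z) = - ∑ i ∈ s, Q.br (S i.1) z * i.2 := by
    intro z
    have h := congrArg (fun w => Q.br w z) hx'
    simp only [Q.alg_left, map_sum, LinearMap.sum_apply, Q.leib', Finset.sum_add_distrib] at h
    rw [eq_neg_iff_add_eq_zero, add_comm]
    exact h
  have e2 : ∀ z, ∑ j ∈ t, S j.1 * Q.br z j.2 = - ∑ j ∈ t, Q.br z (S j.1) * j.2 := by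
    intro z
    have h := congrArg (fun w => Q.br z w) hy'
    simp only [Q.alg_right, map_sum, Q.leib, Finset.sum_add_distrib] at h
    rw [eq_neg_iff_add_eq_zero, add_comm]
    exact h
  have e3 : Algebra.TensorProduct.lift S (AlgHom.id k C) (fun _ _ => Commute.all _ _)
      (tb Q.br Q.br x y) = ∑ j ∈ t, ∑ i ∈ s, (- Q.br (S i.1) (S j.1) * (i.2 * j.2) +
        S i.1 * S j.1 * Q.br i.2 j.2) := by
    rw [hs, ht, map_sum, map_sum]
    refine Finset.sum_congr rfl fun j _ => ?_
    rw [map_sum, LinearMap.sum_apply, map_sum]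
    refine Finset.sum_congr rfl fun i _ => ?_
    rw [tb_tmul, map_add, Algebra.TensorProduct.lift_tmul, Algebra.TensorProduct.lift_tmul, hS,
      map_mul S]
    rfl
  rw [e3]
  simp only [Finset.sum_add_distrib]
  have e4 : ∑ j ∈ t, ∑ i ∈ s, S i.1 * S j.1 * Q.br i.2 j.2 =
      - ∑ j ∈ t, S j.1 * ∑ i ∈ s, Q.br (S i.1) j.2 * i.2 := by
    rw [← Finset.sum_neg_distrib]
    refine Finset.sum_congr rfl fun j _ => ?_
    rw [← mul_neg, ← e1, Finset.mul_sum]
    refine Finset.sum_congr rfl fun i _ => ?_
    ring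
  have e5 : ∑ j ∈ t, S j.1 * ∑ i ∈ s, Q.br (S i.1) j.2 * i.2 =
      ∑ i ∈ s, (∑ j ∈ t, S j.1 * Q.br (S i.1) j.2) * i.2 := by
    simp only [Finset.mul_sum, Finset.sum_mul]
    rw [Finset.sum_comm]
    refine Finset.sum_congr rfl fun i _ => Finset.sum_congr rfl fun j _ => ?_
    ring
  rw [e4, e5]
  have e6 : ∑ i ∈ s, (∑ j ∈ t, S j.1 * Q.br (S i.1) j.2) * i.2 =
      - ∑ i ∈ s, ∑ j ∈ t, Q.br (S i.1) (S j.1) * (i.2 * j.2) := by
    rw [← Finset.sum_neg_distrib]
    refine Finset.sum_congr rfl fun i _ => ?_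
    rw [e2, neg_mul, Finset.sum_mul]
    congr 1
    refine Finset.sum_congr rfl fun j _ => ?_
    ring
  rw [e6, neg_neg, Finset.sum_comm]
  simp

include hS in
/-- the second antipode identity is preserved by brackets -/
theorem key2 (x y : C ⊗[k] C) (u v : k)
    (hx : Algebra.TensorProduct.lift (AlgHom.id k C) S (fun _ _ => Commute.all _ _) x =
      algebraMap k C u)
    (hy : Algebra.TensorProduct.lift (AlgHom.id k C) S (fun _ _ => Commute.all _ _) y =
      algebraMap k C v) :
    Algebra.TensorProduct.lift (AlgHom.id k C) S (fun _ _ => Commute.all _ _)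
      (tb Q.br Q.br x y) = 0 := by
  obtain ⟨s, hs⟩ := TensorProduct.exists_finset x
  obtain ⟨t, ht⟩ := TensorProduct.exists_finset y
  have hx' : ∑ i ∈ s, i.1 * S i.2 = algebraMap k C u := by
    rw [← hx, hs, map_sum]
    simp
  have hy' : ∑ i ∈ t, i.1 * S i.2 = algebraMap k C v := by
    rw [← hy, ht, map_sum]
    simp
  have e1 : ∀ z, ∑ i ∈ s, Q.br i.1 z * S i.2 = - ∑ i ∈ s, i.1 * Q.br (S i.2) z := by
    intro z
    have h := congrArg (fun w => Q.br w z) hx'
    simp only [Q.alg_left, map_sum, LinearMap.sum_apply, Q.leib', Finset.sum_add_distrib] at h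
    rw [eq_neg_iff_add_eq_zero]
    exact h
  have e2 : ∀ z, ∑ j ∈ t, Q.br z j.1 * S j.2 = - ∑ j ∈ t, j.1 * Q.br z (S j.2) := by
    intro z
    have h := congrArg (fun w => Q.br z w) hy'
    simp only [Q.alg_right, map_sum, Q.leib, Finset.sum_add_distrib] at h
    rw [eq_neg_iff_add_eq_zero]
    exact h
  have e3 : Algebra.TensorProduct.lift (AlgHom.id k C) S (fun _ _ => Commute.all _ _)
      (tb Q.br Q.br x y) = ∑ j ∈ t, ∑ i ∈ s, (Q.br i.1 j.1 * (S i.2 * S j.2) +
        i.1 * j.1 * (- Q.br (S i.2) (S j.2))) := by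
    rw [hs, ht, map_sum, map_sum]
    refine Finset.sum_congr rfl fun j _ => ?_
    rw [map_sum, LinearMap.sum_apply, map_sum]
    refine Finset.sum_congr rfl fun i _ => ?_
    rw [tb_tmul, map_add, Algebra.TensorProduct.lift_tmul, Algebra.TensorProduct.lift_tmul, hS,
      map_mul S]
    rfl
  rw [e3]
  simp only [Finset.sum_add_distrib]
  have e4 : ∑ j ∈ t, ∑ i ∈ s, Q.br i.1 j.1 * (S i.2 * S j.2) =
      - ∑ j ∈ t, (∑ i ∈ s, i.1 * Q.br (S i.2) j.1) * S j.2 := by
    rw [← Finset.sum_neg_distrib]
    refine Finset.sum_congr rfl fun j _ => ?_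
    rw [← neg_mul, ← e1, Finset.sum_mul]
    refine Finset.sum_congr rfl fun i _ => ?_
    ring
  have e5 : ∑ j ∈ t, (∑ i ∈ s, i.1 * Q.br (S i.2) j.1) * S j.2 =
      ∑ i ∈ s, i.1 * ∑ j ∈ t, Q.br (S i.2) j.1 * S j.2 := by
    simp only [Finset.mul_sum, Finset.sum_mul]
    rw [Finset.sum_comm]
    refine Finset.sum_congr rfl fun i _ => Finset.sum_congr rfl fun j _ => ?_
    ring
  have e6 : ∑ i ∈ s, i.1 * ∑ j ∈ t, Q.br (S i.2) j.1 * S j.2 =
      - ∑ i ∈ s, ∑ j ∈ t, i.1 * j.1 * Q.br (S i.2) (S j.2) := by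
    rw [← Finset.sum_neg_distrib]
    refine Finset.sum_congr rfl fun i _ => ?_
    rw [e2, mul_neg, Finset.mul_sum]
    congr 1
    refine Finset.sum_congr rfl fun j _ => ?_
    ring
  rw [e4, e5, e6, neg_neg, Finset.sum_comm]
  simp

theorem key_base1 (j : A →ₐ[k] C) (hj : ∀ a, S (j a) = j (antipode k a)) (a : A) :
    Algebra.TensorProduct.lift S (AlgHom.id k C) (fun _ _ => Commute.all _ _)
      (Algebra.TensorProduct.map j j (comul a)) = algebraMap k C (counit a) := by
  have h : ∀ x : A ⊗[k] A, Algebra.TensorProduct.lift S (AlgHom.id k C)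
      (fun _ _ => Commute.all _ _) (Algebra.TensorProduct.map j j x) =
      j (LinearMap.mul' k A ((antipode k).rTensor A x)) := by
    intro x
    induction x using TensorProduct.induction_on with
    | zero => simp
    | add y y' h h' => simp only [map_add, h, h']
    | tmul a b => simp [hj]
  rw [h, mul_antipode_rTensor_comul_apply, AlgHom.commutes]

theorem key_base2 (j : A →ₐ[k] C) (hj : ∀ a, S (j a) = j (antipode k a)) (a : A) :
    Algebra.TensorProduct.lift (AlgHom.id k C) S (fun _ _ => Commute.all _ _)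
      (Algebra.TensorProduct.map j j (comul a)) = algebraMap k C (counit a) := by
  have h : ∀ x : A ⊗[k] A, Algebra.TensorProduct.lift (AlgHom.id k C) S
      (fun _ _ => Commute.all _ _) (Algebra.TensorProduct.map j j x) =
      j (LinearMap.mul' k A ((antipode k).lTensor A x)) := by
    intro x
    induction x using TensorProduct.induction_on with
    | zero => simp
    | add y y' h h' => simp only [map_add, h, h']
    | tmul a b => simp [hj]
  rw [h, mul_antipode_lTensor_comul_apply, AlgHom.commutes]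

end key

theorem pan1 (z : PO P (ah f)) :
    Algebra.TensorProduct.lift (pan hP f) (AlgHom.id k _) (fun _ _ => Commute.all _ _)
      (pco hP f z) = algebraMap k _ (pcu hP f z) := by
  induction z using PO.gen with
  | h1 a => rw [pco_j1, pcu_j1]; exact key_base1 _ _ (pan_j1 hP f) a
  | h2 a => rw [pco_j2, pcu_j2]; exact key_base1 _ _ (pan_j2 hP f) a
  | ha x y hx hy => simp only [map_add, hx, hy]
  | hm x y hx hy => simp only [map_mul, hx, hy]
  | hb x y hx hy =>
    rw [pco_hom hP f, pcu_hom hP f, zero_br, map_zero]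
    exact key1 PO.poi (pan hP f) (pan_hom hP f) _ _ _ _ hx hy

theorem pan2 (z : PO P (ah f)) :
    Algebra.TensorProduct.lift (AlgHom.id k _) (pan hP f) (fun _ _ => Commute.all _ _)
      (pco hP f z) = algebraMap k _ (pcu hP f z) := by
  induction z using PO.gen with
  | h1 a => rw [pco_j1, pcu_j1]; exact key_base2 _ _ (pan_j1 hP f) a
  | h2 a => rw [pco_j2, pcu_j2]; exact key_base2 _ _ (pan_j2 hP f) a
  | ha x y hx hy => simp only [map_add, hx, hy]
  | hm x y hx hy => simp only [map_mul, hx, hy]
  | hb x y hx hy =>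
    rw [pco_hom hP f, pcu_hom hP f, zero_br, map_zero]
    exact key2 PO.poi (pan hP f) (pan_hom hP f) _ _ _ _ hx hy

/-- the Hopf algebra structure of the pushout -/
noncomputable abbrev pho : HopfAlgebra k (PO P (ah f)) :=
  letI := pbi hP f
  HopfAlgebra.ofAlgHom (pan hP f) (AlgHom.ext fun z => pan1 hP f z)
    (AlgHom.ext fun z => pan2 hP f z)

theorem pbi_comul (z : PO P (ah f)) :
    (letI := pho hP f; comul (R := k) z) = pco hP f z := rfl

theorem pbi_counit (z : PO P (ah f)) :
    (letI := pho hP f; counit (R := k) z) = pcu hP f z := rfl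

/-- the pushout is a Poisson Hopf algebra -/
theorem pho_pb : letI := pho hP f; IsPB (PO.poi (P := P) (f := ah f)) :=
  letI := pho hP f
  { co := fun a b => pco_hom hP f a b
    cu := fun a b => pcu_hom hP f a b }

/-- the two maps to the pushout are homomorphisms of bialgebras -/
noncomputable def pj1 : letI := pho hP f; A →ₐc[k] PO P (ah f) :=
  letI := pho hP f
  BialgHom.ofAlgHom PO.j1 (AlgHom.ext fun _ => rfl) (AlgHom.ext fun _ => rfl)

/-- the second map -/
noncomputable def pj2 : letI := pho hP f; A →ₐc[k] PO P (ah f) :=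
  letI := pho hP f
  BialgHom.ofAlgHom PO.j2 (AlgHom.ext fun _ => rfl) (AlgHom.ext fun _ => rfl)

include hP in
/-- An epimorphism of Poisson Hopf algebras is an epimorphism of Poisson algebras. -/
theorem epi_alg
    (hepi : ∀ (C : Type u) [CommRing C] [HopfAlgebra k C] (Q : Poisson k C), IsPB Q →
      ∀ g h : A →ₐc[k] C, IsHom P Q (g : A →ₐ[k] C) → IsHom P Q (h : A →ₐ[k] C) →
        (∀ x, g (f x) = h (f x)) → g = h) (T : Tst P (ah f)) (a : A) : T.g a = T.h a := by
  have h : PO.j1 a = (PO.j2 a : PO P (ah f)) := by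
    letI := pho hP f
    have h1 := hepi (PO P (ah f)) PO.poi (pho_pb hP f) (pj1 hP f) (pj2 hP f) PO.hom_j1 PO.hom_j2
      (fun x => PO.j_eq x)
    exact DFunLike.congr_fun h1 a
  rw [← PO.lift_j1 T a, h]
  rfl

end

end Pool.Agent.Q12.PH
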