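import Pool.Agent.Q12.PH.PBW

/-!
# A module with a vector whose annihilator is a given Lie subalgebra
-/

set_option autoImplicit false
set_option linter.unusedSectionVars false

namespace Pool.Agent.Q12.PH.PBW

open MvPolynomial

section

variable {K : Type*} [Field K] {L : Type*} [LieRing L] [LieAlgebra K L] {I : Type*} [LinearOrder I]

lemma lin_mem {W : Type*} [AddCommGroup W] [Module K W] (φ : MvPolynomial I K →ₗ[K] W) (n : ℕ)
    {Z : Set (I →₀ ℕ)} {Y : Submodule K W}
    (h : ∀ m ∈ Z, dg m ≤ n → φ (mo K m) ∈ Y) {p : MvPolynomial I K}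
    (hp : p ∈ restrictSupport K Z) (hd : p.totalDegree ≤ n) : φ p ∈ Y := by
  rw [p.as_sum, map_sum]
  refine Submodule.sum_mem _ fun m hm => ?_
  have h1 : dg m ≤ n := (le_totalDegree hm).trans hd
  have h2 : monomial m (coeff m p) = coeff m p • mo K m := by
    rw [mo, smul_monomial, smul_eq_mul, mul_one]
  rw [h2, map_smul]
  exact Submodule.smul_mem _ _ (h m ((mem_restrictSupport_iff K).1 hp hm) h1)

lemma mo_mem {Z : Set (I →₀ ℕ)} {m : I →₀ ℕ} (h : m ∈ Z) : mo K m ∈ restrictSupport K Z :=
  (monomial_mem_restrictSupport K).2 (Or.inl h)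

variable (b : Module.Basis I K L) (s : I → Prop)

lemma span_mem {s : I → Prop} {W : Type*} [AddCommGroup W] [Module K W] (φ : L →ₗ[K] W) {Y : Submodule K W}
    (h : ∀ i, s i → φ (b i) ∈ Y) {x : L} (hx : x ∈ Submodule.span K (b '' {l | s l})) :
    φ x ∈ Y := by
  induction hx using Submodule.span_induction with
  | mem x h' => obtain ⟨i, hi, rfl⟩ := h'; exact h i hi
  | zero => rw [map_zero]; exact Y.zero_mem
  | add x y _ _ hx hy => rw [map_add]; exact Y.add_mem hx hy
  | smul c x _ hx => rw [map_smul]; exact Y.smul_mem _ hx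

/-- monomials in the variables of `s` -/
def M0 : Set (I →₀ ℕ) := {m | ∀ l ∈ m.support, s l}

/-- the same, without `1` -/
def M1 : Set (I →₀ ℕ) := {m | m ≠ 0 ∧ ∀ l ∈ m.support, s l}

/-- monomials with at least one variable of `s` -/
def MT : Set (I →₀ ℕ) := {m | ∃ l ∈ m.support, s l}

variable {b s} (hS : ∀ i j, s i → s j → ⁅b i, b j⁆ ∈ Submodule.span K (b '' {l | s l}))
  (hup : ∀ i j, s i → i ≤ j → s j)

lemma M1_sub0 : M1 s ⊆ M0 s := fun _ h => h.2

lemma M1_subT : M1 s ⊆ MT s := by
  intro m h
  obtain ⟨i, hi⟩ := Finsupp.support_nonempty_iff.2 h.1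
  exact ⟨i, hi, h.2 i hi⟩

lemma add_M1 {m : I →₀ ℕ} {i : I} (hm : m ∈ M0 s) (hi : s i) :
    m + Finsupp.single i 1 ∈ M1 s := by
  refine ⟨fun h => ?_, fun l hl => ?_⟩
  · have := DFunLike.congr_fun h i
    simp at this
  · rw [supp_add] at hl
    rcases hl with rfl | hl
    · exact hi
    · exact hm l hl

include hS in
lemma bb (n : ℕ) : ∀ m ∈ M0 s, dg m ≤ n → ∀ i, s i →
    rho b (b i) (mo K m) ∈ restrictSupport K (M1 s) := by
  induction n with
  | zero =>
    intro m hm hd i hi
    rcases dec i m with h | ⟨j, m', rfl, hj, h⟩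
    · rw [rho_le b h, X_mul_mo]
      exact mo_mem (add_M1 hm hi)
    · rw [dg_add] at hd; omega
  | succ n ih =>
    intro m hm hd i hi
    rcases dec i m with h | ⟨j, m', rfl, hj, h⟩
    · rw [rho_le b h, X_mul_mo]
      exact mo_mem (add_M1 hm hi)
    · rw [dg_add] at hd
      have hsj : s j := hm j ((supp_add m' j j).2 (Or.inl rfl))
      have hm' : m' ∈ M0 s := fun l hl => hm l ((supp_add m' j l).2 (Or.inr hl))
      have hd' : dg m' ≤ n := by omega
      rw [rho_lt b h hj]
      refine Submodule.add_mem _ (Submodule.add_mem _ ?_ ?_) ?_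
      · rw [X_mul_mo]
        exact mo_mem (add_M1 hm hi)
      · refine lin_mem (Z := M0 s) _ n (fun m hm hd => ih m hm hd j hsj) ?_ ?_
        · refine Submodule.sub_mem _ (restrictSupport_mono K M1_sub0 (ih m' hm' hd' i hi)) ?_
          rw [X_mul_mo]
          exact mo_mem (M1_sub0 (add_M1 hm' hi))
        · refine (rho_deg b i _).trans ?_
          rw [td_mo]; exact hd'
      · exact span_mem b ((rho b).flip (mo K m')) (fun l hl => ih m' hm' hd' l hl)
          (hS i j hi hsj)

include hS hup in
lemma aa (n : ℕ) : ∀ m ∈ MT s, dg m ≤ n → ∀ i,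
    rho b (b i) (mo K m) ∈ restrictSupport K (MT s) := by
  have addT : ∀ {m : I →₀ ℕ} {i : I}, m ∈ MT s → m + Finsupp.single i 1 ∈ MT s := by
    rintro m i ⟨l, hl, hs⟩
    exact ⟨l, (supp_add m i l).2 (Or.inr hl), hs⟩
  induction n with
  | zero =>
    intro m hm hd i
    rcases dec i m with h | ⟨j, m', rfl, hj, h⟩
    · rw [rho_le b h, X_mul_mo]
      exact mo_mem (addT hm)
    · rw [dg_add] at hd; omega
  | succ n ih =>
    intro m hm hd i
    rcases dec i m with h | ⟨j, m', rfl, hj, h⟩
    · rw [rho_le b h, X_mul_mo]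
      exact mo_mem (addT hm)
    · by_cases hsj : s j
      · have hm0 : m' + Finsupp.single j 1 ∈ M0 s := by
          intro l hl
          rw [supp_add] at hl
          rcases hl with rfl | hl
          · exact hsj
          · exact hup j l hsj (h l hl)
        exact restrictSupport_mono K M1_subT (bb hS (n + 1) _ hm0 hd i (hup j i hsj hj.le))
      · rw [dg_add] at hd
        have hm' : m' ∈ MT s := by
          obtain ⟨l, hl, hs⟩ := hm
          rw [supp_add] at hl
          rcases hl with rfl | hl
          · exact absurd hs hsj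
          · exact ⟨l, hl, hs⟩
        have hd' : dg m' ≤ n := by omega
        rw [rho_lt b h hj]
        refine Submodule.add_mem _ (Submodule.add_mem _ ?_ ?_) ?_
        · rw [X_mul_mo]
          exact mo_mem (addT hm)
        · refine lin_mem (Z := MT s) _ n (fun m hm hd => ih m hm hd j) ?_ ?_
          · refine Submodule.sub_mem _ (ih m' hm' hd' i) ?_
            rw [X_mul_mo]
            exact mo_mem (addT hm')
          · refine (rho_deg b i _).trans ?_
            rw [td_mo]; exact hd'
        · refine ind b (fun x => rho b x (mo K m') ∈ restrictSupport K (MT s)) ?_ ?_ ?_ ?_ _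
          · intro l
            exact ih m' hm' hd' l
          · simp
          · intro x y hx hy
            rw [map_add, LinearMap.add_apply]
            exact Submodule.add_mem _ hx hy
          · intro c x hx
            rw [map_smul, LinearMap.smul_apply]
            exact Submodule.smul_mem _ _ hx

include hS hup in
lemma stable (x : L) (p : MvPolynomial I K) (hp : p ∈ restrictSupport K (MT s)) :
    rho b x p ∈ restrictSupport K (MT s) := by
  refine ind b (fun x => rho b x p ∈ restrictSupport K (MT s)) ?_ ?_ ?_ ?_ x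
  · intro i
    exact lin_mem (Z := MT s) _ p.totalDegree (fun m hm hd => aa hS hup _ m hm hd i) hp le_rfl
  · simp
  · intro x y hx hy
    rw [map_add, LinearMap.add_apply]
    exact Submodule.add_mem _ hx hy
  · intro c x hx
    rw [map_smul, LinearMap.smul_apply]
    exact Submodule.smul_mem _ _ hx

lemma rho_one (i : I) : rho b (b i) 1 = X i := by
  have h : (1 : MvPolynomial I K) = mo K 0 := rfl
  rw [h, rho_le b (by simp), ← h, mul_one]

lemma rho_one' (x : L) : rho b x 1 = ∑ i ∈ (b.repr x).support, b.repr x i • X i := by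
  conv_lhs => rw [← b.linearCombination_repr x, Finsupp.linearCombination_apply, Finsupp.sum,
    map_sum, LinearMap.sum_apply]
  refine Finset.sum_congr rfl fun i _ => ?_
  rw [map_smul, LinearMap.smul_apply, rho_one]

end

universe u

open Classical in
/-- For a Lie subalgebra `S` of `L` there is an `L`-module with a vector whose annihilator in `L`
is `S`. -/
theorem exists_module {K L : Type u} [Field K] [LieRing L] [LieAlgebra K L]
    (S : LieSubalgebra K L) : ∃ (E : Type u) (_ : AddCommGroup E) (_ : Module K E)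
    (ρ : L →ₗ[K] Module.End K E) (e : E),
    (∀ x y, ρ ⁅x, y⁆ = ρ x * ρ y - ρ y * ρ x) ∧ ∀ x, ρ x e = 0 ↔ x ∈ S := by
  obtain ⟨C, hC⟩ := Submodule.exists_isCompl S.toSubmodule
  let bC := Module.Basis.ofVectorSpace K C
  let bS := Module.Basis.ofVectorSpace K S.toSubmodule
  let ιC := Module.Basis.ofVectorSpaceIndex K C
  let ιS := Module.Basis.ofVectorSpaceIndex K S.toSubmodule
  letI : LinearOrder ιC := WellOrderingRel.isWellOrder.linearOrder
  letI : LinearOrder ιS := WellOrderingRel.isWellOrder.linearOrder
  let b : Module.Basis (ιC ⊕ₗ ιS) K L :=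
    ((bC.prod bS).map (Submodule.prodEquivOfIsCompl C S.toSubmodule hC.symm)).reindex toLex
  obtain ⟨s, hs⟩ : ∃ s : ιC ⊕ₗ ιS → Prop, ∀ i, s i ↔ ∃ j : ιS, i = toLex (Sum.inr j) :=
    ⟨_, fun _ => Iff.rfl⟩
  have hbS : ∀ j : ιS, b (toLex (Sum.inr j)) = (bS j : L) := by
    intro j
    simp [b]
  have hspan : Submodule.span K (b '' {l | s l}) = S.toSubmodule := by
    have h1 : b '' {l | s l} = S.toSubmodule.subtype '' Set.range bS := by
      ext x
      constructor
      · rintro ⟨i, hi, rfl⟩
        obtain ⟨j, rfl⟩ := (hs i).1 hi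
        exact ⟨bS j, ⟨j, rfl⟩, (hbS j).symm⟩
      · rintro ⟨_, ⟨j, rfl⟩, rfl⟩
        exact ⟨toLex (Sum.inr j), (hs _).2 ⟨j, rfl⟩, hbS j⟩
    rw [h1, Submodule.span_image, bS.span_eq, Submodule.map_top, Submodule.range_subtype]
  have hS : ∀ i j, s i → s j → ⁅b i, b j⁆ ∈ Submodule.span K (b '' {l | s l}) := by
    intro i j hi hj
    obtain ⟨i', rfl⟩ := (hs i).1 hi
    obtain ⟨j', rfl⟩ := (hs j).1 hj
    rw [hspan, hbS, hbS]
    exact S.lie_mem (bS i').2 (bS j').2
  have hup : ∀ i j, s i → i ≤ j → s j := by
    intro i j hi hij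
    obtain ⟨i', rfl⟩ := (hs i).1 hi
    rcases hj : ofLex j with j' | j'
    · have : j = toLex (Sum.inl j') := by rw [← hj]; rfl
      rw [this] at hij
      exact absurd hij (by simp)
    · exact (hs j).2 ⟨j', by rw [← hj]; rfl⟩
  let T := restrictSupport K (MT s)
  have hst : ∀ x, T ≤ T.comap (rho b x) := fun x p hp => stable hS hup x p hp
  let ρ : L →ₗ[K] Module.End K (MvPolynomial (ιC ⊕ₗ ιS) K ⧸ T) :=
    { toFun := fun x => T.mapQ T (rho b x) (hst x)
      map_add' := fun x y => by
        apply Submodule.linearMap_qext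
        refine LinearMap.ext fun p => ?_
        show T.mkQ (rho b (x + y) p) = T.mkQ (rho b x p) + T.mkQ (rho b y p)
        rw [map_add, LinearMap.add_apply, map_add]
      map_smul' := fun c x => by
        apply Submodule.linearMap_qext
        refine LinearMap.ext fun p => ?_
        show T.mkQ (rho b (c • x) p) = c • T.mkQ (rho b x p)
        rw [map_smul, LinearMap.smul_apply, map_smul] }
  refine ⟨MvPolynomial (ιC ⊕ₗ ιS) K ⧸ T, inferInstance, inferInstance, ρ, T.mkQ 1, ?_, ?_⟩
  · intro x y
    apply Submodule.linearMap_qext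
    refine LinearMap.ext fun p => ?_
    show T.mkQ (rho b ⁅x, y⁆ p) = T.mkQ (rho b x (rho b y p)) - T.mkQ (rho b y (rho b x p))
    rw [← com b (p.totalDegree + 1) x y p (Nat.lt_succ_self _), map_sub]
  · intro x
    have e : ρ x (T.mkQ 1) = T.mkQ (rho b x 1) := rfl
    rw [e, Submodule.mkQ_apply, Submodule.Quotient.mk_eq_zero]
    constructor
    · intro h
      have h1 : ∀ i, b.repr x i ≠ 0 → s i := by
        intro i hi
        have h2 : coeff (Finsupp.single i 1) (rho b x 1) = b.repr x i := by
          rw [rho_one', coeff_sum]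
          simp only [coeff_smul, coeff_X]
          rw [Finset.sum_eq_single i]
          · simp
          · intro j _ hj
            rw [if_neg, smul_zero]
            intro h
            exact hj (Finsupp.single_left_injective one_ne_zero h)
          · intro hi'
            rw [Finsupp.notMem_support_iff.1 hi', zero_smul]
        have h3 : Finsupp.single i 1 ∈ (rho b x 1).support := by
          rw [mem_support_iff, h2]
          exact hi
        obtain ⟨l, hl, hsl⟩ := (mem_restrictSupport_iff K).1 h h3
        rw [Finsupp.mem_support_iff, Finsupp.single_apply] at hl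
        by_cases hil : i = l
        · rw [hil]; exact hsl
        · rw [if_neg hil] at hl
          exact absurd rfl hl
      have h4 : x ∈ Submodule.span K (b '' {l | s l}) := by
        rw [← b.linearCombination_repr x, Finsupp.linearCombination_apply, Finsupp.sum]
        refine Submodule.sum_mem _ fun i hi => Submodule.smul_mem _ _ (Submodule.subset_span ?_)
        exact ⟨i, h1 i (Finsupp.mem_support_iff.1 hi), rfl⟩
      rw [hspan] at h4
      exact h4
    · intro h
      have h4 : x ∈ Submodule.span K (b '' {l | s l}) := by rw [hspan]; exact h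
      refine span_mem b ((rho b).flip 1) (fun i hi => ?_) h4
      show rho b (b i) 1 ∈ T
      rw [rho_one]
      refine (mem_restrictSupport_iff K).2 fun m hm => ?_
      have h5 : m = Finsupp.single i 1 := by
        rw [support_X, Finset.mem_coe, Finset.mem_singleton] at hm
        exact hm
      rw [h5]
      exact ⟨i, by simp, hi⟩

end Pool.Agent.Q12.PH.PBW
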