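import Pool.Agent.Q12.PH.Mod
import Pool.Agent.Q12.PH.Rel

/-!
# The augmentation ideal is generated by the image
-/

set_option autoImplicit false
set_option linter.unusedSectionVars false

open TensorProduct Coalgebra HopfAlgebra

universe u

namespace Pool.Agent.Q12.PH

section lie

variable {k A : Type u} [Field k] [CommRing A] [HopfAlgebra k A] (P : Poisson k A)

/-- the Lie algebra of a Poisson algebra -/
def LA (_ : Poisson k A) : Type u := A

local instance : AddCommGroup (LA P) := inferInstanceAs (AddCommGroup A)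

local instance : Module k (LA P) := inferInstanceAs (Module k A)

local instance : LieRing (LA P) where
  bracket a b := P.br a b
  add_lie a b c := LinearMap.congr_fun (P.br.map_add a b) c
  lie_add a b c := (P.br a).map_add b c
  lie_self a := P.self a
  leibniz_lie a b c := P.jac a b c

local instance : LieAlgebra k (LA P) where
  lie_smul c a b := (P.br a).map_smul c b

variable (k A) in
/-- the constants and the products of two elements of the augmentation ideal -/
def W0 : Submodule k A := Submodule.span k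
  ({z | ∃ x y : A, counit (R := k) x = 0 ∧ counit (R := k) y = 0 ∧ z = x * y} ∪ {1})

theorem W0_der {X : Type*} [AddCommGroup X] [Module k X] (φ : A →ₗ[k] X)
    (h : ∀ a b, φ (a * b) = counit (R := k) a • φ b + counit (R := k) b • φ a) {z : A}
    (hz : z ∈ W0 k A) : φ z = 0 := by
  have h1 : W0 k A ≤ LinearMap.ker φ := by
    refine Submodule.span_le.2 ?_
    rintro z (⟨x, y, hx, hy, rfl⟩ | hz)
    · rw [SetLike.mem_coe, LinearMap.mem_ker, h, hx, hy, zero_smul, zero_smul, add_zero]
    · rw [Set.mem_singleton_iff] at hz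
      subst hz
      have h2 := h 1 1
      rw [mul_one, Bialgebra.counit_one, one_smul] at h2
      rw [SetLike.mem_coe, LinearMap.mem_ker]
      simpa using h2
  exact h1 hz

theorem mul_mod (a b : A) : a * b - (counit (R := k) a • b + counit (R := k) b • a) ∈ W0 k A := by
  have h1 : (a - algebraMap k A (counit a)) * (b - algebraMap k A (counit b)) ∈ W0 k A :=
    Submodule.subset_span (Or.inl ⟨_, _, by simp, by simp, rfl⟩)
  have h2 : algebraMap k A (counit a * counit b) ∈ W0 k A := by
    rw [Algebra.algebraMap_eq_smul_one]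
    exact Submodule.smul_mem _ _ (Submodule.subset_span (Or.inr rfl))
  have h3 := Submodule.sub_mem _ h1 h2
  convert h3 using 1
  rw [Algebra.smul_def, Algebra.smul_def, map_mul]
  ring

variable {P}

/-- the Lie ideal of the constants and the products -/
def W (hP : IsPB P) : LieIdeal k (LA P) where
  __ := W0 k A
  lie_mem := by
    intro x z hz
    show P.br x z ∈ W0 k A
    have h1 : W0 k A ≤ (W0 k A).comap (P.br x) := by
      refine Submodule.span_le.2 ?_
      rintro z (⟨a, b, ha, hb, rfl⟩ | hz)
      · show P.br x (a * b) ∈ W0 k A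
        rw [P.leib]
        exact Submodule.add_mem _
          (Submodule.subset_span (Or.inl ⟨_, _, hP.cu _ _, hb, rfl⟩))
          (Submodule.subset_span (Or.inl ⟨_, _, ha, hP.cu _ _, rfl⟩))
      · rw [Set.mem_singleton_iff] at hz
        subst hz
        show P.br x 1 ∈ W0 k A
        rw [P.one_right]
        exact Submodule.zero_mem _
    exact h1 hz

end lie

section step

attribute [local instance] instAddCommGroupLA instModuleLA instLieRingLA instLieAlgebraLA

variable {k H A : Type u} [Field k] [CommRing H] [HopfAlgebra k H] [CommRing A] [HopfAlgebra k A]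
  {R : Poisson k H} {P : Poisson k A} (hR : IsPB R) (hP : IsPB P) (f : H →ₐc[k] A)
  (hf : ∀ x y, f (R.br x y) = P.br (f x) (f y))
  (hT : ∀ (T : Tst P (ah f)) (a : A), T.g a = T.h a)

include hP hf hT in
/-- Step 1: modulo constants and products every element is in the image. -/
theorem step1 (a : A) : ∃ x : H, a - f x ∈ W0 k A := by
  let 𝔤 : Type u := LA P ⧸ W hP
  let q : A →ₗ[k] 𝔤 := (W hP).toSubmodule.mkQ
  have hq : ∀ a b, q (P.br a b) = ⁅q a, q b⁆ := fun a b => rfl
  have hq0 : ∀ a, q a = 0 ↔ a ∈ W0 k A := fun a => Submodule.Quotient.mk_eq_zero _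
  have hqm : ∀ a b, q (a * b) = counit (R := k) a • q b + counit (R := k) b • q a := by
    intro a b
    rw [← map_smul, ← map_smul, ← map_add, ← sub_eq_zero, ← map_sub, hq0]
    exact mul_mod a b
  let S : LieSubalgebra k 𝔤 :=
    { carrier := {z | ∃ x : H, q (f x) = z}
      add_mem' := by
        rintro _ _ ⟨x, rfl⟩ ⟨y, rfl⟩
        exact ⟨x + y, by rw [map_add, map_add]⟩
      zero_mem' := ⟨0, by rw [map_zero, map_zero]⟩
      smul_mem' := by
        rintro c _ ⟨x, rfl⟩
        exact ⟨c • x, by rw [map_smul, map_smul]⟩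
      lie_mem' := by
        rintro _ _ ⟨x, rfl⟩ ⟨y, rfl⟩
        exact ⟨R.br x y, by rw [hf, hq]⟩ }
  obtain ⟨E, _, _, ρ', e, hρ', he⟩ := PBW.exists_module S
  let ρ : A →ₗ[k] Module.End k E := ρ' ∘ₗ q
  have h1 : ∀ a b, ρ (a * b) = counit (R := k) a • ρ b + counit (R := k) b • ρ a := by
    intro a b
    show ρ' (q (a * b)) = _
    rw [hqm, map_add, map_smul, map_smul]
    rfl
  have h2 : ∀ a b, ρ (P.br a b) = ρ a * ρ b - ρ b * ρ a := by
    intro a b
    show ρ' (q (P.br a b)) = _
    rw [hq, hρ']
    rfl
  have h3 : ∀ x : H, ρ (f x) e = 0 := fun x => (he (q (f x))).2 ⟨x, rfl⟩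
  have h4 : ∀ x : H, (repMod h1 h2 hP).act (ah f x) (1 ⊗ₜ e) = 0 := by
    intro x
    rw [repMod_one]
    show Xi ρ (comul (f x)) (1 ⊗ₜ e) = 0
    rw [comul_f]
    generalize comul (R := k) x = y
    induction y using TensorProduct.induction_on with
    | zero => simp
    | add y y' h h' => simp only [map_add, LinearMap.add_apply, h, h', add_zero]
    | tmul a b =>
      rw [Algebra.TensorProduct.map_tmul, Xi_tmul]
      show _ ⊗ₜ ρ (f b) e = 0
      rw [h3, TensorProduct.tmul_zero]
  have h5 := act_zero (repMod h1 h2 hP) (ah f) hT (1 ⊗ₜ e) h4 a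
  rw [repMod_one] at h5
  have h6 : ρ a e = 0 := by rw [← cl_Xi (ρ := ρ), h5, map_zero]
  obtain ⟨x, hx⟩ := (he (q a)).1 h6
  refine ⟨x, (hq0 _).1 ?_⟩
  rw [map_sub, hx, sub_self]

theorem tau_skew (a b : A) : tau P a b = - tau P b a := by
  rw [tau_eq, tau_eq, Finset.sum_comm, ← Finset.sum_neg_distrib]
  refine Finset.sum_congr rfl fun j _ => ?_
  rw [← Finset.sum_neg_distrib]
  refine Finset.sum_congr rfl fun i _ => ?_
  rw [P.skew]
  ring

theorem tau_W (c : A) {z : A} (hz : z ∈ W0 k A) : tau P z c = 0 := by
  let φ : A →ₗ[k] A := (cn k A * cb P).ofConv ∘ₗ (TensorProduct.mk k A A).flip c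
  have hφ : ∀ a, φ a = tau P a c := fun a => rfl
  rw [← hφ]
  refine W0_der φ (fun a b => ?_) hz
  rw [hφ, hφ, hφ, tau_mul, Algebra.smul_def, Algebra.smul_def]

theorem tau_sub (a b c : A) : tau P (a - b) c = tau P a c - tau P b c := by
  let φ : A →ₗ[k] A := (cn k A * cb P).ofConv ∘ₗ (TensorProduct.mk k A A).flip c
  exact map_sub φ a b

theorem tau_congr {a a' c c' : A} (ha : a - a' ∈ W0 k A) (hc : c - c' ∈ W0 k A) :
    tau P a c = tau P a' c' := by
  have h1 := tau_W (P := P) c ha
  have h2 := tau_W (P := P) a' hc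
  rw [tau_sub, sub_eq_zero] at h1 h2
  rw [h1, tau_skew, h2, ← tau_skew]

include hf in
theorem tau_f (x y : H) : tau P (f x) (f y) = f (tau R x y) := by
  rw [tau_repr (f x) (f y) ((ℛ k x).induced (R := k) f) ((ℛ k y).induced (R := k) f), tau_eq,
    map_sum]
  refine Finset.sum_congr rfl fun i _ => ?_
  rw [map_sum]
  refine Finset.sum_congr rfl fun j _ => ?_
  rw [map_mul, map_mul, map_antipode, map_antipode, hf]
  rfl

include hR in
theorem counit_tau (x y : H) : counit (R := k) (tau R x y) = 0 := by
  rw [tau_eq, map_sum]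
  refine Finset.sum_eq_zero fun i _ => ?_
  rw [map_sum]
  refine Finset.sum_eq_zero fun j _ => ?_
  rw [Bialgebra.counit_mul, hR.cu, mul_zero]

/-- the ideal generated by the image of the augmentation ideal -/
def J (f : H →ₐc[k] A) : Ideal A := Ideal.span {a | ∃ x : H, counit (R := k) x = 0 ∧ f x = a}

include hR hP hf hT in
/-- Step 2: all brackets are in this ideal. -/
theorem step2 (a c : A) : P.br a c ∈ J f := by
  rw [br_eq_tau]
  refine Ideal.sum_mem _ fun i _ => Ideal.sum_mem _ fun j _ => Ideal.mul_mem_left _ _ ?_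
  obtain ⟨x, hx⟩ := step1 hP f hf hT ((ℛ k a).right i)
  obtain ⟨y, hy⟩ := step1 hP f hf hT ((ℛ k c).right j)
  rw [tau_congr hx hy, tau_f f hf]
  exact Ideal.subset_span ⟨_, counit_tau hR x y, rfl⟩

include hR hP hf hT in
/-- Step 3: this ideal is the augmentation ideal. -/
theorem step3 (a : A) (ha : counit (R := k) a = 0) : a ∈ J f := by
  let π : A →ₐ[k] A ⧸ J f := Ideal.Quotient.mkₐ k (J f)
  have hπ : IsHom P (zero k (A ⧸ J f)) π := by
    intro a b
    rw [zero_br]
    exact Ideal.Quotient.eq_zero_iff_mem.2 (step2 hR hP f hf hT a b)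
  have hπ1 : ∀ x : H, π (f x) = algebraMap k _ (counit x) := by
    intro x
    have h1 : f (x - algebraMap k H (counit x)) ∈ J f :=
      Ideal.subset_span ⟨_, by simp, rfl⟩
    have h2 : π (f (x - algebraMap k H (counit x))) = 0 := Ideal.Quotient.eq_zero_iff_mem.2 h1
    have h3 : f (algebraMap k H (counit x)) = algebraMap k A (counit x) :=
      AlgHomClass.commutes f _
    rw [map_sub, h3, map_sub, AlgHom.commutes, sub_eq_zero] at h2
    exact h2
  let T : Tst P (ah f) :=
    { D := A ⊗[k] (A ⧸ J f)
      Q := P.tensor (zero k (A ⧸ J f))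
      g := Algebra.TensorProduct.includeLeft
      h := (Algebra.TensorProduct.map (AlgHom.id k A) π).comp (Bialgebra.comulAlgHom k A)
      hg := by
        intro a b
        show P.br a b ⊗ₜ 1 = (P.tensor (zero k (A ⧸ J f))).br (a ⊗ₜ 1) (b ⊗ₜ 1)
        rw [tensor_tmul, zero_br, TensorProduct.tmul_zero, add_zero, mul_one]
      hh := (isHom_map (IsHom.id P) hπ).comp (Q := P.tensor P) hP.co
      eq := by
        intro x
        show f x ⊗ₜ 1 = Algebra.TensorProduct.map (AlgHom.id k A) π (comul (f x))
        rw [comul_f]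
        have h1 : ∀ y : H ⊗[k] H, Algebra.TensorProduct.map (AlgHom.id k A) π
            (Algebra.TensorProduct.map (ah f) (ah f) y) =
            f (TensorProduct.rid k H (counit.lTensor H y)) ⊗ₜ 1 := by
          intro y
          induction y using TensorProduct.induction_on with
          | zero => simp
          | add y y' h h' => simp only [map_add, h, h', TensorProduct.add_tmul]
          | tmul a b =>
            rw [Algebra.TensorProduct.map_tmul, Algebra.TensorProduct.map_tmul,
              LinearMap.lTensor_tmul, TensorProduct.rid_tmul, map_smul]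
            show f a ⊗ₜ π (f b) = _
            rw [hπ1, Algebra.algebraMap_eq_smul_one, TensorProduct.tmul_smul,
              TensorProduct.smul_tmul']
        rw [h1, Coalgebra.lTensor_counit_comul, TensorProduct.rid_tmul, one_smul] }
  have h1 := hT T a
  have h2 : a ⊗ₜ[k] (1 : A ⧸ J f) = Algebra.TensorProduct.map (AlgHom.id k A) π (comul a) := h1
  have h3 := congrArg (fun z => TensorProduct.lid k (A ⧸ J f)
    ((counit (R := k) (A := A)).rTensor (A ⧸ J f) z)) h2
  have h4 : ∀ y : A ⊗[k] A, TensorProduct.lid k (A ⧸ J f)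
      ((counit (R := k) (A := A)).rTensor (A ⧸ J f)
        (Algebra.TensorProduct.map (AlgHom.id k A) π y)) =
      π (TensorProduct.lid k A (counit.rTensor A y)) := by
    intro y
    induction y using TensorProduct.induction_on with
    | zero => simp
    | add y y' h h' => simp only [map_add, h, h']
    | tmul a b => simp
  simp only [h4, Coalgebra.rTensor_counit_comul, LinearMap.rTensor_tmul, ha] at h3
  rw [TensorProduct.lid_tmul, zero_smul, TensorProduct.lid_tmul, one_smul] at h3
  exact Ideal.Quotient.eq_zero_iff_mem.1 h3.symm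

end step

end Pool.Agent.Q12.PH
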